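import Mathlib

/-!
# Plain and prefix-free Kolmogorov complexity

Machines are partial recursive functions on binary strings (`List Bool`), in the sense of
Mathlib's `Partrec`.
-/

namespace Pool.Agent.KCN

/-- The usual identification of natural numbers with binary strings:
`0, 1, 2, 3, 4, ...` correspond to the strings `ε, 0, 1, 00, 01, ...`; that is, the string
corresponding to `n` is the binary expansion (most significant digit first) of `n + 1` with its
leading digit `1` removed. -/
def str (n : ℕ) : List Bool := (Nat.bits (n + 1)).reverse.tail

/-- The length of a shortest program `p` on which the machine `f` outputs `x`, i.e. the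
complexity of `x` with respect to `f`.  (For optimal machines every `x` has a program.) -/
noncomputable def descLen (f : List Bool →. List Bool) (x : List Bool) : ℕ :=
  sInf {l | ∃ p : List Bool, x ∈ f p ∧ p.length = l}

/-- The domain of the machine `f` is a prefix-free set of strings. -/
def PrefixFreeDom (f : List Bool →. List Bool) : Prop :=
  ∀ p q : List Bool, (f p).Dom → (f q).Dom → p <+: q → p = q

/-- `U` is an (additively) optimal plain machine: it is partial recursive, and for every partial
recursive machine `M` there is a constant `c` such that, whenever `M` outputs `x` on `p`, the
machine `U` outputs `x` on some program of length at most `|p| + c`. -/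
structure IsOptimalPlain (U : List Bool →. List Bool) : Prop where
  partrec : Partrec U
  optimal : ∀ M : List Bool →. List Bool, Partrec M →
    ∃ c : ℕ, ∀ p x, x ∈ M p → ∃ q, x ∈ U q ∧ q.length ≤ p.length + c

/-- `V` is an (additively) optimal prefix-free machine: it is partial recursive with prefix-free
domain, and optimal among all machines with these properties. -/
structure IsOptimalPrefixFree (V : List Bool →. List Bool) : Prop where
  partrec : Partrec V
  prefixFree : PrefixFreeDom V
  optimal : ∀ M : List Bool →. List Bool, Partrec M → PrefixFreeDom M →
    ∃ c : ℕ, ∀ p x, x ∈ M p → ∃ q, x ∈ V q ∧ q.length ≤ p.length + c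

/-- `W` is an (additively) optimal conditional prefix-free machine; `W p y` is the output on
program `p` and condition `y`.  `W` is partial recursive in `(p, y)`, for every fixed condition
`y` the set of halting programs is prefix-free, and `W` is optimal among all machines with these
properties, with a constant `c` not depending on the condition. -/
structure IsOptimalCondPrefixFree (W : List Bool → List Bool →. List Bool) : Prop where
  partrec : Partrec₂ W
  prefixFree : ∀ y, PrefixFreeDom (fun p => W p y)
  optimal : ∀ M : List Bool → List Bool →. List Bool, Partrec₂ M →
    (∀ y, PrefixFreeDom (fun p => M p y)) →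
    ∃ c : ℕ, ∀ p y x, x ∈ M p y → ∃ q, x ∈ W q y ∧ q.length ≤ p.length + c

end Pool.Agent.KCN
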