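import Pool.Agent.KCN.Comp
import Pool.Agent.KCN.Cplx

/-!
Binary strings and numbers.
-/

namespace Pool.Agent.KCN

/-- the number with binary expansion `l` (most significant digit first) -/
def val (l : List Bool) : ℕ := l.foldl (fun a b => 2 * a + cond b 1 0) 0

theorem foldl_append_aux (a : ℕ) (l : List Bool) :
    l.foldl (fun a b => 2 * a + cond b 1 0) a = a * 2 ^ l.length + val l := by
  unfold val
  induction l generalizing a with
  | nil => simp
  | cons b l ih =>
    rw [List.foldl_cons, List.foldl_cons, ih, ih (2 * 0 + cond b 1 0), List.length_cons, pow_succ]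
    ring

theorem val_append (l u : List Bool) : val (l ++ u) = val l * 2 ^ u.length + val u := by
  rw [val, List.foldl_append, foldl_append_aux]
  rfl

theorem val_concat (l : List Bool) (b : Bool) : val (l ++ [b]) = 2 * val l + cond b 1 0 := by
  rw [val_append]; simp [val]; ring

theorem val_lt (l : List Bool) : val l < 2 ^ l.length := by
  induction l using List.reverseRecOn with
  | nil => simp [val]
  | append_singleton l b ih =>
    rw [val_concat, List.length_append, List.length_singleton, pow_succ]
    cases b <;> simp <;> omega

theorem exists_val (L v : ℕ) (h : v < 2 ^ L) : ∃ l : List Bool, l.length = L ∧ val l = v := by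
  induction L generalizing v with
  | zero => exact ⟨[], rfl, by simp at h; simp [val, h]⟩
  | succ L ih =>
    obtain ⟨l, h1, h2⟩ := ih (v / 2) (by rw [pow_succ] at h; omega)
    refine ⟨l ++ [decide (v % 2 = 1)], by simp [h1], ?_⟩
    rw [val_concat, h2]
    by_cases hv : v % 2 = 1
    · simp [hv]; omega
    · simp [hv]; omega

theorem val_pr : Primrec val := by
  unfold val
  refine Primrec.list_foldl (f := fun l : List Bool => l) (g := fun _ => (0 : ℕ))
    (h := fun _ p => 2 * p.1 + cond p.2 1 0) Primrec.id (Primrec.const 0) ?_
  refine add_pr (mul_pr (Primrec.const 2) (Primrec.fst.comp Primrec.snd)) ?_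
  exact Primrec.cond (Primrec.snd.comp Primrec.snd) (Primrec.const 1) (Primrec.const 0)

/-- the number `≥ 1` whose binary expansion is `1 l` -/
def bval (l : List Bool) : ℕ := l.foldl (fun a b => 2 * a + cond b 1 0) 1

theorem bval_concat (l : List Bool) (b : Bool) : bval (l ++ [b]) = 2 * bval l + cond b 1 0 := by
  simp [bval, List.foldl_append]

theorem bval_nil : bval [] = 1 := rfl

theorem bval_pos (l : List Bool) : 0 < bval l := by
  induction l using List.reverseRecOn with
  | nil => simp [bval_nil]
  | append_singleton l b ih => rw [bval_concat]; omega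

theorem bval_pr : Primrec bval := by
  unfold bval
  refine Primrec.list_foldl (f := fun l : List Bool => l) (g := fun _ => (1 : ℕ))
    (h := fun _ p => 2 * p.1 + cond p.2 1 0) Primrec.id (Primrec.const 1) ?_
  refine add_pr (mul_pr (Primrec.const 2) (Primrec.fst.comp Primrec.snd)) ?_
  exact Primrec.cond (Primrec.snd.comp Primrec.snd) (Primrec.const 1) (Primrec.const 0)

theorem bits_bval (l : List Bool) : (bval l).bits = l.reverse ++ [true] := by
  induction l using List.reverseRecOn with
  | nil => simp [bval_nil]
  | append_singleton l b ih =>
    rw [bval_concat]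
    have h0 : bval l ≠ 0 := (bval_pos l).ne'
    cases b
    · simp only [cond_false, add_zero]
      rw [← Nat.bit_false_apply, Nat.bits_append_bit _ _ (by intro h; exact absurd h h0), ih]
      simp
    · simp only [cond_true]
      rw [← Nat.bit_true_apply, Nat.bits_append_bit _ _ (by intro h; exact absurd h h0), ih]
      simp

/-- inverse of `str` -/
def num (l : List Bool) : ℕ := bval l - 1

theorem str_num (l : List Bool) : str (num l) = l := by
  have := bval_pos l
  rw [str, num, Nat.sub_add_cancel this, bits_bval]
  simp

theorem exists_bval (m : ℕ) (hm : 0 < m) : ∃ l, bval l = m := by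
  induction m using Nat.strong_induction_on with
  | _ m ih =>
    by_cases h1 : m = 1
    · exact ⟨[], by rw [h1]; rfl⟩
    · obtain ⟨l, hl⟩ := ih (m / 2) (by omega) (by omega)
      refine ⟨l ++ [decide (m % 2 = 1)], ?_⟩
      rw [bval_concat, hl]
      by_cases hv : m % 2 = 1
      · simp [hv]; omega
      · simp [hv]; omega

theorem num_str (n : ℕ) : num (str n) = n := by
  obtain ⟨l, hl⟩ := exists_bval (n + 1) (Nat.succ_pos n)
  have : n = num l := by rw [num, hl]; rfl
  rw [this, str_num]

theorem num_inj {l l' : List Bool} (h : num l = num l') : l = l' := by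
  rw [← str_num l, h, str_num]

theorem str_inj {n n' : ℕ} (h : str n = str n') : n = n' := by
  rw [← num_str n, h, num_str]

theorem num_pr : Primrec num := by
  unfold num
  exact sub_pr bval_pr (Primrec.const 1)

theorem str_comp : Computable str := by
  have h : Partrec (fun n : ℕ => Nat.rfindOpt (fun k : ℕ =>
      (Encodable.decode (α := List Bool) k).bind
        (fun l => if num l = n then some l else none))) := by
    refine Partrec.rfindOpt ?_
    refine Primrec₂.to_comp ?_
    refine Primrec.option_bind (Primrec.decode.comp Primrec.snd) ?_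
    refine Primrec.ite ?_ (Primrec.option_some.comp Primrec.snd) (Primrec.const none)
    exact eq_pr (num_pr.comp Primrec.snd) (Primrec.fst.comp Primrec.fst)
  refine Partrec.of_eq_tot h ?_
  intro n
  have hdom : (Nat.rfindOpt (fun k : ℕ => (Encodable.decode (α := List Bool) k).bind
        (fun l => if num l = n then some l else none))).Dom := by
    rw [Nat.rfindOpt_dom]
    refine ⟨Encodable.encode (str n), str n, ?_⟩
    simp [Encodable.encodek, num_str]
  obtain ⟨y, hy⟩ := Part.dom_iff_mem.1 hdom
  obtain ⟨k, hk⟩ := Nat.rfindOpt_spec hy
  have : y = str n := by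
    rw [Option.mem_def, Option.bind_eq_some_iff] at hk
    obtain ⟨l, _, hl⟩ := hk
    split_ifs at hl with h
    simp only [Option.some.injEq] at hl
    rw [← hl, ← h, str_num]
  rw [this] at hy
  exact hy

end Pool.Agent.KCN
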