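import Pool.Agent.KCN.Game

/-!
Primitive recursiveness of the strategy of `Pool.Agent.KCN.Game`.
-/

namespace Pool.Agent.KCN

section general

variable {α β : Type*} [Primcodable α] [Primcodable β]

theorem pow_pr {f g : α → ℕ} (hf : Primrec f) (hg : Primrec g) : Primrec fun a => f a ^ g a :=
  (Primrec₂.unpaired'.1 Nat.Primrec.pow).comp hf hg

theorem add_pr {f g : α → ℕ} (hf : Primrec f) (hg : Primrec g) : Primrec fun a => f a + g a :=
  Primrec.nat_add.comp hf hg

theorem sub_pr {f g : α → ℕ} (hf : Primrec f) (hg : Primrec g) : Primrec fun a => f a - g a :=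
  Primrec.nat_sub.comp hf hg

theorem mul_pr {f g : α → ℕ} (hf : Primrec f) (hg : Primrec g) : Primrec fun a => f a * g a :=
  Primrec.nat_mul.comp hf hg

theorem div_pr {f g : α → ℕ} (hf : Primrec f) (hg : Primrec g) : Primrec fun a => f a / g a :=
  Primrec.nat_div.comp hf hg

theorem mod_pr {f g : α → ℕ} (hf : Primrec f) (hg : Primrec g) : Primrec fun a => f a % g a :=
  Primrec.nat_mod.comp hf hg

theorem ex_lt_pr {f : β → ℕ} {R : β → ℕ → Prop} (hf : Primrec f) (hR : PrimrecRel R) :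
    PrimrecPred (fun b => ∃ x < f b, R b x) := by
  have h := hR.swap.exists_mem_list
  exact (h.comp (Primrec.list_range.comp hf) Primrec.id).of_eq (by
    intro b; simp [Function.swap])

theorem all_lt_pr {f : β → ℕ} {R : β → ℕ → Prop} (hf : Primrec f) (hR : PrimrecRel R) :
    PrimrecPred (fun b => ∀ x < f b, R b x) := by
  have h := hR.swap.forall_mem_list
  exact (h.comp (Primrec.list_range.comp hf) Primrec.id).of_eq (by
    intro b; simp [Function.swap])

theorem filter_pr {f : β → ℕ} {R : β → ℕ → Bool} (hf : Primrec f) (hR : Primrec₂ R) :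
    Primrec (fun b => ((List.range (f b)).filter (fun x => R b x)).length) := by
  have h1 : PrimrecRel (fun (x : ℕ) (b : β) => R b x = true) := by
    apply PrimrecRel.comp Primrec.eq _ (Primrec.const true)
    exact hR.swap
  have h := (h1.listFilter).comp (Primrec.list_range.comp hf) Primrec.id
  exact (Primrec.list_length.comp h).of_eq (by intro b; simp)

end general

section strat

variable {α : Type*} [Primcodable α]
variable {A B : ℕ → ℕ → ℕ → Bool} {S : ℕ → ℕ → ℕ → ℕ → Bool}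

theorem el_pr {r i z : α → ℕ} (hr : Primrec r) (hi : Primrec i) (hz : Primrec z) :
    Primrec fun a => el (r a) (i a) (z a) :=
  Primrec₂.natPair.comp hr (Primrec₂.natPair.comp hi hz)

theorem nn_pr {N g r : α → ℕ} (hN : Primrec N) (hg : Primrec g) (hr : Primrec r) :
    Primrec fun a => nn (N a) (g a) (r a) :=
  mul_pr hr (mul_pr (add_pr hN (Primrec.const 1)) hg)

theorem lv_pr {N g e r τ : α → ℕ} (hN : Primrec N) (hg : Primrec g) (he : Primrec e)
    (hr : Primrec r) (hτ : Primrec τ) :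
    Primrec fun a => lv (N a) (g a) (e a) (r a) (τ a) :=
  add_pr (add_pr (nn_pr hN hg hr) (mul_pr (sub_pr hN hτ) hg)) he

theorem kv_pr {N g D e r i : α → ℕ} (hN : Primrec N) (hg : Primrec g) (hD : Primrec D)
    (he : Primrec e) (hr : Primrec r) (hi : Primrec i) :
    Primrec fun a => kv (N a) (g a) (D a) (e a) (r a) (i a) :=
  add_pr (add_pr (nn_pr hN hg hr) (sub_pr hD hi)) he

theorem A_pr (hA : Primrec fun a : ℕ × ℕ × ℕ => A a.1 a.2.1 a.2.2) {t x m : α → ℕ}
    (ht : Primrec t) (hx : Primrec x) (hm : Primrec m) : Primrec fun a => A (t a) (x a) (m a) :=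
  hA.comp (ht.pair (hx.pair hm))

theorem S_pr (hS : Primrec fun a : ℕ × ℕ × ℕ × ℕ => S a.1 a.2.1 a.2.2.1 a.2.2.2)
    {t x k v : α → ℕ} (ht : Primrec t) (hx : Primrec x) (hk : Primrec k) (hv : Primrec v) :
    Primrec fun a => S (t a) (x a) (k a) (v a) :=
  hS.comp (ht.pair (hx.pair (hk.pair hv)))

theorem eqb_pr {f : α → Bool} (hf : Primrec f) (b : Bool) : PrimrecPred fun a => f a = b :=
  PrimrecRel.comp Primrec.eq hf (Primrec.const b)

theorem eq_pr {f g : α → ℕ} (hf : Primrec f) (hg : Primrec g) : PrimrecPred fun a => f a = g a :=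
  PrimrecRel.comp Primrec.eq hf hg

theorem stab1_pr (hA : Primrec fun a : ℕ × ℕ × ℕ => A a.1 a.2.1 a.2.2)
    (hB : Primrec fun a : ℕ × ℕ × ℕ => B a.1 a.2.1 a.2.2)
    (hS : Primrec fun a : ℕ × ℕ × ℕ × ℕ => S a.1 a.2.1 a.2.2.1 a.2.2.2)
    {t x L k : α → ℕ} (ht : Primrec t) (hx : Primrec x) (hL : Primrec L) (hk : Primrec k) :
    PrimrecPred fun a => stab1 A B S (t a) (x a) (L a) (k a) := by
  unfold stab1
  refine ex_lt_pr (add_pr hL (Primrec.const 1)) ?_
  refine ex_lt_pr (add_pr (hk.comp Primrec.fst) (Primrec.const 1)) ?_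
  have h1 : Primrec (fun p : (α × ℕ) × ℕ => t p.1.1) := ht.comp (Primrec.fst.comp Primrec.fst)
  have h2 : Primrec (fun p : (α × ℕ) × ℕ => x p.1.1) := hx.comp (Primrec.fst.comp Primrec.fst)
  have h3 : Primrec (fun p : (α × ℕ) × ℕ => p.1.2) := Primrec.snd.comp Primrec.fst
  have h4 : Primrec (fun p : (α × ℕ) × ℕ => p.2) := Primrec.snd
  refine PrimrecPred.and (eqb_pr (A_pr hA h1 h2 h3) true) ?_
  refine PrimrecPred.and (PrimrecPred.or (eq_pr h3 (Primrec.const 0))
    (eqb_pr (A_pr hA h1 h2 (sub_pr h3 (Primrec.const 1))) false)) ?_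
  refine PrimrecPred.and (eqb_pr (A_pr hB h1 h2 h4) true) ?_
  refine PrimrecPred.and (PrimrecPred.or (eq_pr h4 (Primrec.const 0))
    (eqb_pr (A_pr hB h1 h2 (sub_pr h4 (Primrec.const 1))) false)) ?_
  exact eqb_pr (S_pr hS h1 h2 h4 h3) true

theorem stabB_pr (hA : Primrec fun a : ℕ × ℕ × ℕ => A a.1 a.2.1 a.2.2)
    (hB : Primrec fun a : ℕ × ℕ × ℕ => B a.1 a.2.1 a.2.2)
    (hS : Primrec fun a : ℕ × ℕ × ℕ × ℕ => S a.1 a.2.1 a.2.2.1 a.2.2.2)
    {N g D e t r i τ : α → ℕ} (hN : Primrec N) (hg : Primrec g) (hD : Primrec D)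
    (he : Primrec e) (ht : Primrec t) (hr : Primrec r) (hi : Primrec i) (hτ : Primrec τ) :
    PrimrecPred fun a => stabB A B S (N a) (g a) (D a) (e a) (t a) (r a) (i a) (τ a) := by
  unfold stabB
  refine all_lt_pr (pow_pr (Primrec.const 2) (nn_pr hN hg hr)) ?_
  exact stab1_pr hA hB hS (ht.comp Primrec.fst)
    (el_pr (hr.comp Primrec.fst) (hi.comp Primrec.fst) Primrec.snd)
    ((lv_pr hN hg he hr hτ).comp Primrec.fst) ((kv_pr hN hg hD he hr hi).comp Primrec.fst)

theorem big_pr (hA : Primrec fun a : ℕ × ℕ × ℕ => A a.1 a.2.1 a.2.2)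
    {N g e t r i τ : α → ℕ} (hN : Primrec N) (hg : Primrec g)
    (he : Primrec e) (ht : Primrec t) (hr : Primrec r) (hi : Primrec i) (hτ : Primrec τ) :
    PrimrecPred fun a => big A (N a) (g a) (e a) (t a) (r a) (i a) (τ a) := by
  unfold big
  refine PrimrecRel.comp Primrec.nat_le (pow_pr (Primrec.const 2) (nn_pr hN hg hr))
    (mul_pr (mul_pr (Primrec.const 2) hN) ?_)
  refine filter_pr (pow_pr (Primrec.const 2) (nn_pr hN hg hr)) ?_
  exact A_pr hA (ht.comp Primrec.fst)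
    (el_pr (hr.comp Primrec.fst) (hi.comp Primrec.fst) Primrec.snd)
    ((lv_pr hN hg he hr (add_pr hτ (Primrec.const 1))).comp Primrec.fst)

theorem step_pr (hA : Primrec fun a : ℕ × ℕ × ℕ => A a.1 a.2.1 a.2.2)
    (hB : Primrec fun a : ℕ × ℕ × ℕ => B a.1 a.2.1 a.2.2)
    (hS : Primrec fun a : ℕ × ℕ × ℕ × ℕ => S a.1 a.2.1 a.2.2.1 a.2.2.2)
    {N g D e t : α → ℕ} {h : α → ℕ × ℕ × ℕ × ℕ} (hN : Primrec N) (hg : Primrec g)
    (hD : Primrec D) (he : Primrec e) (ht : Primrec t) (hh : Primrec h) :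
    Primrec fun a => step A B S (N a) (g a) (D a) (e a) (t a) (h a) := by
  classical
  have hr : Primrec (fun a => (h a).1) := Primrec.fst.comp hh
  have hi : Primrec (fun a => (h a).2.1) := Primrec.fst.comp (Primrec.snd.comp hh)
  have hτ : Primrec (fun a => (h a).2.2.1) :=
    Primrec.fst.comp (Primrec.snd.comp (Primrec.snd.comp hh))
  have hp : Primrec (fun a => (h a).2.2.2) :=
    Primrec.snd.comp (Primrec.snd.comp (Primrec.snd.comp hh))
  have c1 : Primrec (fun _ : α => (1 : ℕ)) := Primrec.const 1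
  have c2 : Primrec (fun _ : α => (2 : ℕ)) := Primrec.const 2
  have c0 : Primrec (fun _ : α => (0 : ℕ)) := Primrec.const 0
  unfold step
  refine Primrec.ite (stabB_pr hA hB hS hN hg hD he ht hr hi hτ) ?_ hh
  refine Primrec.ite (PrimrecRel.comp Primrec.nat_lt hτ hN) ?_ ?_
  · refine Primrec.ite (big_pr hA hN hg he ht hr hi hτ) ?_ ?_
    · refine hr.pair ((add_pr hi c1).pair (c0.pair ?_))
      exact mul_pr (add_pr (div_pr hp (pow_pr c2 (add_pr hi c1))) c1) (pow_pr c2 (add_pr hi c1))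
    · exact hr.pair (hi.pair ((add_pr hτ c1).pair hp))
  · refine Primrec.ite (PrimrecRel.comp Primrec.nat_lt (add_pr hp (pow_pr c2 hi))
      (pow_pr c2 (sub_pr hD c1))) ?_ hh
    exact (add_pr hr c1).pair (c0.pair (c0.pair (add_pr hp (pow_pr c2 hi))))

theorem hd_pr (hA : Primrec fun a : ℕ × ℕ × ℕ => A a.1 a.2.1 a.2.2)
    (hB : Primrec fun a : ℕ × ℕ × ℕ => B a.1 a.2.1 a.2.2)
    (hS : Primrec fun a : ℕ × ℕ × ℕ × ℕ => S a.1 a.2.1 a.2.2.1 a.2.2.2)
    {N g D e t : α → ℕ} (hN : Primrec N) (hg : Primrec g)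
    (hD : Primrec D) (he : Primrec e) (ht : Primrec t) :
    Primrec fun a => hd A B S (N a) (g a) (D a) (e a) (t a) := by
  have h1 := Primrec.nat_rec' (f := t) (g := fun _ : α => ((0, 0, 0, 0) : ℕ × ℕ × ℕ × ℕ))
    (h := fun a p => step A B S (N a) (g a) (D a) (e a) p.1 p.2) ht (Primrec.const _)
    (step_pr hA hB hS (hN.comp Primrec.fst) (hg.comp Primrec.fst) (hD.comp Primrec.fst)
      (he.comp Primrec.fst) (Primrec.fst.comp Primrec.snd) (Primrec.snd.comp Primrec.snd))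
  refine h1.of_eq ?_
  intro a
  generalize t a = n
  induction n with
  | zero => rfl
  | succ n ih => simp only [hd_succ]; rw [← ih]

theorem rank_pr (hA : Primrec fun a : ℕ × ℕ × ℕ => A a.1 a.2.1 a.2.2)
    (hB : Primrec fun a : ℕ × ℕ × ℕ => B a.1 a.2.1 a.2.2)
    (hS : Primrec fun a : ℕ × ℕ × ℕ × ℕ => S a.1 a.2.1 a.2.2.1 a.2.2.2)
    {N g D e t : α → ℕ} {h : α → ℕ × ℕ × ℕ × ℕ} (hN : Primrec N) (hg : Primrec g)
    (hD : Primrec D) (he : Primrec e) (ht : Primrec t) (hh : Primrec h) :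
    Primrec fun a => rank A B S (N a) (g a) (D a) (e a) (t a) (h a) := by
  classical
  have hr : Primrec (fun a => (h a).1) := Primrec.fst.comp hh
  have hi : Primrec (fun a => (h a).2.1) := Primrec.fst.comp (Primrec.snd.comp hh)
  have hτ : Primrec (fun a => (h a).2.2.1) :=
    Primrec.fst.comp (Primrec.snd.comp (Primrec.snd.comp hh))
  unfold rank
  refine filter_pr hi ?_
  refine PrimrecPred.decide ?_
  refine ex_lt_pr (add_pr (ht.comp Primrec.fst) (Primrec.const 1)) ?_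
  have f1 : Primrec (fun p : (α × ℕ) × ℕ => p.1.1) := Primrec.fst.comp Primrec.fst
  have H : Primrec (fun p : (α × ℕ) × ℕ =>
      hd A B S (N p.1.1) (g p.1.1) (D p.1.1) (e p.1.1) p.2) :=
    hd_pr hA hB hS (hN.comp f1) (hg.comp f1) (hD.comp f1) (he.comp f1) Primrec.snd
  refine PrimrecPred.and (eq_pr (Primrec.fst.comp H) (hr.comp f1)) ?_
  refine PrimrecPred.and (eq_pr (Primrec.fst.comp (Primrec.snd.comp H))
    (Primrec.snd.comp Primrec.fst)) ?_
  exact eq_pr (Primrec.fst.comp (Primrec.snd.comp (Primrec.snd.comp H))) (hτ.comp f1)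

end strat

end Pool.Agent.KCN
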