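import Pool.Agent.KCN.Machines

/-!
Kolmogorov complexities, and stagewise approximations of machines.
-/

namespace Pool.Agent.KCN

theorem descLen_le {f : List Bool →. List Bool} {x p : List Bool} (h : x ∈ f p) :
    descLen f x ≤ p.length := Nat.sInf_le ⟨p, h, rfl⟩

theorem exists_descLen {f : List Bool →. List Bool} {x : List Bool} (h : ∃ p, x ∈ f p) :
    ∃ p, x ∈ f p ∧ p.length = descLen f x := by
  have : {l | ∃ p : List Bool, x ∈ f p ∧ p.length = l}.Nonempty := by
    obtain ⟨p, hp⟩ := h; exact ⟨_, p, hp, rfl⟩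
  exact Nat.sInf_mem this

theorem exists_approx {α σ : Type*} [Primcodable α] [Primcodable σ] {f : α →. σ}
    (hf : Partrec f) : ∃ F : ℕ → α → Option σ, Primrec₂ F ∧
      (∀ t t' a y, t ≤ t' → F t a = some y → F t' a = some y) ∧
      ∀ a y, y ∈ f a ↔ ∃ t, F t a = some y := by
  obtain ⟨c, hc⟩ := Nat.Partrec.Code.exists_code.1 hf
  refine ⟨fun t a => (Nat.Partrec.Code.evaln t c (Encodable.encode a)).bind
    (fun m => Encodable.decode (α := σ) m), ?_, ?_, ?_⟩
  · refine Primrec.option_bind ?_ (Primrec.decode.comp Primrec.snd)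
    exact Nat.Partrec.Code.primrec_evaln.comp
      ((Primrec.fst.pair (Primrec.const c)).pair (Primrec.encode.comp Primrec.snd))
  · intro t t' a y htt h
    rw [Option.bind_eq_some_iff] at h ⊢
    obtain ⟨m, h1, h2⟩ := h
    exact ⟨m, Nat.Partrec.Code.evaln_mono htt h1, h2⟩
  · intro a y
    have key : ∀ m, m ∈ Nat.Partrec.Code.eval c (Encodable.encode a) ↔
        ∃ y ∈ f a, Encodable.encode y = m := by
      intro m
      rw [hc]
      simp [Encodable.encodek]
    constructor
    · intro h
      have h1 := (key (Encodable.encode y)).2 ⟨y, h, rfl⟩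
      obtain ⟨t, ht⟩ := Nat.Partrec.Code.evaln_complete.1 h1
      refine ⟨t, ?_⟩
      rw [Option.bind_eq_some_iff]
      exact ⟨_, ht, Encodable.encodek y⟩
    · rintro ⟨t, ht⟩
      rw [Option.bind_eq_some_iff] at ht
      obtain ⟨m, h1, h2⟩ := ht
      have h3 := Nat.Partrec.Code.evaln_sound h1
      obtain ⟨y', h4, h5⟩ := (key m).1 h3
      rw [← h5, Encodable.encodek, Option.some.injEq] at h2
      rw [← h2]; exact h4

/-- `c` is the code of a program of length at most `m` producing `x` within time `t` -/
def good (F : ℕ → List Bool → Option ℕ) (t x m c : ℕ) : Bool :=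
  ((Encodable.decode (α := List Bool) c).bind
    (fun p => if p.length ≤ m ∧ F t p = some x then some () else none)).isSome

theorem good_iff {F : ℕ → List Bool → Option ℕ} {t x m c : ℕ} : good F t x m c = true ↔
    ∃ p, Encodable.decode (α := List Bool) c = some p ∧ p.length ≤ m ∧ F t p = some x := by
  unfold good
  rw [Option.isSome_iff_exists]
  constructor
  · rintro ⟨a, ha⟩
    rw [Option.bind_eq_some_iff] at ha
    obtain ⟨p, h1, h2⟩ := ha
    split_ifs at h2 with h3
    exact ⟨p, h1, h3⟩
  · rintro ⟨p, h1, h2⟩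
    exact ⟨(), by rw [h1]; simp [h2]⟩

/-- some program of length at most `m` produces `x` within time `t` -/
def dsc (F : ℕ → List Bool → Option ℕ) (t x m : ℕ) : Bool :=
  decide (∃ c < t, good F t x m c = true)

theorem dsc_sound {F : ℕ → List Bool → Option ℕ} {t x m : ℕ} (h : dsc F t x m = true) :
    ∃ p : List Bool, p.length ≤ m ∧ F t p = some x := by
  unfold dsc at h
  rw [decide_eq_true_eq] at h
  obtain ⟨c, _, h⟩ := h
  obtain ⟨p, _, h⟩ := good_iff.1 h
  exact ⟨p, h⟩

theorem dsc_mono_m {F : ℕ → List Bool → Option ℕ} (t x m m' : ℕ) (hm : m ≤ m')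
    (h : dsc F t x m = true) : dsc F t x m' = true := by
  unfold dsc at *
  rw [decide_eq_true_eq] at *
  obtain ⟨c, h1, h⟩ := h
  obtain ⟨p, h2, h3, h4⟩ := good_iff.1 h
  exact ⟨c, h1, good_iff.2 ⟨p, h2, h3.trans hm, h4⟩⟩

theorem dsc_complete {F : ℕ → List Bool → Option ℕ}
    (hF : ∀ t t' a y, t ≤ t' → F t a = some y → F t' a = some y) {t x m : ℕ} {p : List Bool}
    (hp : p.length ≤ m) (h : F t p = some x) : ∃ t0, ∀ t' ≥ t0, dsc F t' x m = true := by
  refine ⟨max t (Encodable.encode p + 1), ?_⟩
  intro t' ht'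
  unfold dsc
  rw [decide_eq_true_eq]
  refine ⟨Encodable.encode p, ?_, good_iff.2 ⟨p, Encodable.encodek p, hp, ?_⟩⟩
  · have := le_max_right t (Encodable.encode p + 1); omega
  · exact hF t t' p x ((le_max_left _ _).trans ht') h

theorem dsc_pr {α : Type*} [Primcodable α] {F : α → ℕ → List Bool → Option ℕ}
    (hF : Primrec (fun a : α × ℕ × List Bool => F a.1 a.2.1 a.2.2)) {t x m : α → ℕ}
    (ht : Primrec t) (hx : Primrec x) (hm : Primrec m) :
    Primrec fun a => dsc (F a) (t a) (x a) (m a) := by
  unfold dsc
  refine PrimrecPred.decide ?_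
  refine ex_lt_pr ht ?_
  refine eqb_pr ?_ true
  unfold good
  refine Primrec.option_isSome.comp ?_
  refine Primrec.option_bind (Primrec.decode.comp Primrec.snd) ?_
  have f1 : Primrec (fun p : (α × ℕ) × List Bool => p.1.1) := Primrec.fst.comp Primrec.fst
  refine Primrec.ite ?_ (Primrec.const _) (Primrec.const none)
  refine PrimrecPred.and ?_ ?_
  · exact PrimrecRel.comp Primrec.nat_le (Primrec.list_length.comp Primrec.snd) (hm.comp f1)
  · refine PrimrecRel.comp Primrec.eq ?_ (Primrec.option_some.comp (hx.comp f1))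
    exact hF.comp (f1.pair ((ht.comp f1).pair Primrec.snd))

/-- number of strings of length at most `m` -/
theorem card_short (m : ℕ) (X : Finset (List Bool)) (h : ∀ p ∈ X, p.length ≤ m) :
    X.card < 2 ^ (m + 1) := by
  classical
  have h1 : (X.image bval).card = X.card := by
    apply Finset.card_image_of_injective
    intro a b hab
    exact num_inj (by unfold num; rw [hab])
  have h2 : X.image bval ⊆ Finset.Ico 1 (2 ^ (m + 1)) := by
    intro y hy
    rw [Finset.mem_image] at hy
    obtain ⟨p, hp, rfl⟩ := hy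
    rw [Finset.mem_Ico]
    refine ⟨bval_pos p, ?_⟩
    unfold bval
    rw [foldl_append_aux]
    have h3 := val_lt p
    have h4 : 2 ^ (p.length + 1) ≤ 2 ^ (m + 1) :=
      Nat.pow_le_pow_right (by norm_num) (by have := h p hp; omega)
    rw [pow_succ] at h4
    omega
  have h3 := Finset.card_le_card h2
  rw [Nat.card_Ico, h1] at h3
  have : 0 < 2 ^ (m + 1) := by positivity
  omega

/-- Kraft inequality for prefix-free sets, in integer form -/
theorem kraft (T : ℕ) (X : Finset (List Bool)) (h : ∀ p ∈ X, p.length ≤ T)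
    (hpf : ∀ p ∈ X, ∀ q ∈ X, p <+: q → p = q) : ∑ p ∈ X, 2 ^ (T - p.length) ≤ 2 ^ T := by
  classical
  -- every `p` in `X` owns the interval of numbers `val (p ++ u)`, `|p ++ u| = T`
  set Y : Finset ℕ := X.biUnion
    (fun p => Finset.Ico (val p * 2 ^ (T - p.length)) ((val p + 1) * 2 ^ (T - p.length))) with hY
  have hdisj : ∀ p ∈ X, ∀ q ∈ X, p ≠ q → Disjoint
      (Finset.Ico (val p * 2 ^ (T - p.length)) ((val p + 1) * 2 ^ (T - p.length)))
      (Finset.Ico (val q * 2 ^ (T - q.length)) ((val q + 1) * 2 ^ (T - q.length))) := by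
    have key : ∀ p ∈ X, ∀ q ∈ X, p ≠ q → p.length ≤ q.length → ∀ a,
        a ∈ Finset.Ico (val p * 2 ^ (T - p.length)) ((val p + 1) * 2 ^ (T - p.length)) →
        a ∈ Finset.Ico (val q * 2 ^ (T - q.length)) ((val q + 1) * 2 ^ (T - q.length)) →
        False := by
      intro p hp q hq hne hl a ha hb
      rw [Finset.mem_Ico] at ha hb
      -- write `q = q1 ++ q2` with `|q1| = |p|`
      have hq12 : q = q.take p.length ++ q.drop p.length := (List.take_append_drop _ _).symm
      set q1 := q.take p.length with hq1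
      set q2 := q.drop p.length with hq2
      have hlen1 : q1.length = p.length := by rw [hq1, List.length_take]; omega
      have hqT := h q hq
      have hTq : T - p.length = q2.length + (T - q.length) := by
        rw [hq2, List.length_drop]; omega
      have hval : val q = val q1 * 2 ^ q2.length + val q2 := by
        conv_lhs => rw [hq12]
        exact val_append _ _
      have hv2 := val_lt q2
      have e1 : val q1 * 2 ^ (T - p.length) ≤ val q * 2 ^ (T - q.length) := by
        rw [hTq, pow_add, hval, ← mul_assoc]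
        exact Nat.mul_le_mul_right _ (Nat.le_add_right _ _)
      have e2 : (val q + 1) * 2 ^ (T - q.length) ≤ (val q1 + 1) * 2 ^ (T - p.length) := by
        rw [hTq, pow_add, hval, ← mul_assoc]
        apply Nat.mul_le_mul_right
        rw [add_mul]; omega
      have e3 : val q1 < val p + 1 := by
        by_contra hcon
        have := Nat.mul_le_mul_right (2 ^ (T - p.length)) (not_lt.1 hcon)
        omega
      have e4 : val p < val q1 + 1 := by
        by_contra hcon
        have := Nat.mul_le_mul_right (2 ^ (T - p.length)) (not_lt.1 hcon)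
        omega
      have e5 : val q1 = val p := by omega
      have e6 : bval q1 = bval p := by
        unfold bval
        rw [foldl_append_aux, foldl_append_aux, e5, hlen1]
      have e7 : q1 = p := num_inj (by unfold num; rw [e6])
      exact hne (hpf p hp q hq ⟨q2, by rw [← e7]; exact hq12.symm⟩)
    intro p hp q hq hne
    rw [Finset.disjoint_left]
    intro a ha hb
    rcases Nat.le_total p.length q.length with hl | hl
    · exact key p hp q hq hne hl a ha hb
    · exact key q hq p hp hne.symm hl a hb ha
  have hcard : Y.card = ∑ p ∈ X, 2 ^ (T - p.length) := by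
    rw [hY, Finset.card_biUnion hdisj]
    apply Finset.sum_congr rfl
    intro p _
    rw [Nat.card_Ico, add_mul]
    omega
  rw [← hcard]
  have hsub : Y ⊆ Finset.range (2 ^ T) := by
    intro a ha
    rw [hY, Finset.mem_biUnion] at ha
    obtain ⟨p, hp, ha⟩ := ha
    rw [Finset.mem_Ico] at ha
    rw [Finset.mem_range]
    have h1 := val_lt p
    have h2 := h p hp
    calc a < (val p + 1) * 2 ^ (T - p.length) := ha.2
      _ ≤ 2 ^ p.length * 2 ^ (T - p.length) := Nat.mul_le_mul_right _ h1
      _ = 2 ^ T := by rw [← pow_add]; congr 1; omega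
  simpa using Finset.card_le_card hsub

end Pool.Agent.KCN
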