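import Pool.Agent.KCN.Unbounded

/-!
Existence of optimal machines (so that the main theorem is not vacuous).
-/

namespace Pool.Agent.KCN

open Nat.Partrec (Code)

theorem exists_code_spec {α σ : Type*} [Primcodable α] [Primcodable σ] {f : α →. σ}
    (hf : Partrec f) : ∃ c : Code, ∀ a m, m ∈ c.eval (Encodable.encode a) ↔
      ∃ y ∈ f a, Encodable.encode y = m := by
  obtain ⟨c, hc⟩ := Nat.Partrec.Code.exists_code.1 hf
  refine ⟨c, ?_⟩
  intro a m
  rw [hc]
  simp [Encodable.encodek]

theorem exists_optimalPlain : ∃ U : List Bool →. List Bool, IsOptimalPlain U := by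
  refine ⟨fun q => (Code.eval (Denumerable.ofNat Code (lead q))
    (Encodable.encode (q.drop (lead q + 1)))).bind
      (fun m => (Encodable.decode (α := List Bool) m : Part (List Bool))), ?_, ?_⟩
  · refine Partrec.bind ?_ (Computable.ofOption (Computable.decode.comp Computable.snd)).to₂
    refine Code.eval_part.comp ?_ ?_
    · exact (Computable.ofNat Code).comp lead_pr.to_comp
    · refine Computable.encode.comp ?_
      exact (Primrec.list_drop.comp (add_pr lead_pr (Primrec.const 1)) Primrec.id).to_comp
  · intro M hM
    obtain ⟨c, hc⟩ := exists_code_spec hM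
    refine ⟨Encodable.encode c + 1, ?_⟩
    intro p x hx
    refine ⟨List.replicate (Encodable.encode c) true ++ false :: p, ?_, by simp; omega⟩
    rw [lead_eq, drop_eq, Denumerable.ofNat_encode, Part.mem_bind_iff]
    exact ⟨Encodable.encode x, (hc p _).2 ⟨x, hx, rfl⟩, by simp [Encodable.encodek]⟩

/-- comparability of strings -/
def cmp (w w' : List Bool) : Prop := w.take w'.length = w' ∨ w'.take w.length = w

theorem cmp_of_prefix {w w' : List Bool} (h : w <+: w') : cmp w w' := by
  right
  exact (List.prefix_iff_eq_take.1 h).symm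

theorem prefix_of_cmp {w w' : List Bool} (h : cmp w w') : w <+: w' ∨ w' <+: w := by
  rcases h with h | h
  · right; rw [← h]; exact List.take_prefix _ _
  · left; rw [← h]; exact List.take_prefix _ _

theorem cmp_pr {α : Type*} [Primcodable α] {w w' : α → List Bool} (hw : Primrec w)
    (hw' : Primrec w') : PrimrecPred fun a => cmp (w a) (w' a) := by
  unfold cmp
  refine PrimrecPred.or ?_ ?_
  · exact PrimrecRel.comp Primrec.eq
      (Primrec.list_take.comp (Primrec.list_length.comp hw') hw) hw'
  · exact PrimrecRel.comp Primrec.eq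
      (Primrec.list_take.comp (Primrec.list_length.comp hw) hw') hw

open Classical in
/-- `n` codes a string comparable to `w`, different from `w`, on which the machine with code `c`
has halted within time `t` (condition `y`). -/
noncomputable def clash (c : Code) (t : ℕ) (w y : List Bool) (n : ℕ) : Bool :=
  ((Encodable.decode (α := List Bool) n).bind (fun w' =>
    if ¬ w' = w ∧ cmp w w' ∧ (Code.evaln t c (Encodable.encode (w', y))).isSome = true then some ()
    else none)).isSome

theorem clash_iff {c : Code} {t : ℕ} {w y : List Bool} {n : ℕ} : clash c t w y n = true ↔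
    ∃ w', Encodable.decode (α := List Bool) n = some w' ∧ w' ≠ w ∧ cmp w w' ∧
      (Code.evaln t c (Encodable.encode (w', y))).isSome = true := by
  unfold clash
  rw [Option.isSome_iff_exists]
  constructor
  · rintro ⟨a, ha⟩
    rw [Option.bind_eq_some_iff] at ha
    obtain ⟨p, h1, h2⟩ := ha
    split_ifs at h2 with h3
    exact ⟨p, h1, h3⟩
  · rintro ⟨p, h1, h2⟩
    refine ⟨(), ?_⟩
    rw [h1, Option.bind_some, if_pos h2]

open Classical in
/-- stages of the universal prefix-free machine -/
noncomputable def Tf (c : Code) (w y : List Bool) (t : ℕ) : Option (List Bool) :=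
  if ∀ n < t, clash c t w y n = false then
    (Code.evaln t c (Encodable.encode (w, y))).bind
      (fun m => Encodable.decode (α := List Bool) m)
  else none

open Classical in
/-- stages of the universal conditional prefix-free machine -/
noncomputable def Wf (a : List Bool × List Bool) (t : ℕ) : Option (List Bool) :=
  if lead a.1 < a.1.length then
    Tf (Denumerable.ofNat Code (lead a.1)) (a.1.drop (lead a.1 + 1)) a.2 t
  else none

theorem clash_pr {α : Type*} [Primcodable α] {c : α → Code} {t n : α → ℕ} {w y : α → List Bool}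
    (hc : Primrec c) (ht : Primrec t) (hn : Primrec n) (hw : Primrec w) (hy : Primrec y) :
    Primrec fun a => clash (c a) (t a) (w a) (y a) (n a) := by
  classical
  unfold clash
  refine Primrec.option_isSome.comp ?_
  refine Primrec.option_bind (Primrec.decode.comp hn) ?_
  refine Primrec.ite ?_ (Primrec.const _) (Primrec.const none)
  have f1 : Primrec (fun p : α × List Bool => p.1) := Primrec.fst
  refine PrimrecPred.and (PrimrecPred.not (PrimrecRel.comp Primrec.eq Primrec.snd
    (hw.comp f1))) ?_
  refine PrimrecPred.and (cmp_pr (hw.comp f1) Primrec.snd) ?_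
  refine eqb_pr ?_ true
  refine Primrec.option_isSome.comp ?_
  exact Code.primrec_evaln.comp (((ht.comp f1).pair (hc.comp f1)).pair
    (Primrec.encode.comp (Primrec.snd.pair (hy.comp f1))))

theorem Tf_pr {α : Type*} [Primcodable α] {c : α → Code} {t : α → ℕ} {w y : α → List Bool}
    (hc : Primrec c) (ht : Primrec t) (hw : Primrec w) (hy : Primrec y) :
    Primrec fun a => Tf (c a) (w a) (y a) (t a) := by
  classical
  unfold Tf
  refine Primrec.ite ?_ ?_ (Primrec.const none)
  · refine all_lt_pr ht ?_
    refine eqb_pr ?_ false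
    exact clash_pr (hc.comp Primrec.fst) (ht.comp Primrec.fst) Primrec.snd
      (hw.comp Primrec.fst) (hy.comp Primrec.fst)
  · refine Primrec.option_bind ?_ (Primrec.decode.comp Primrec.snd)
    exact Code.primrec_evaln.comp ((ht.pair hc).pair (Primrec.encode.comp (hw.pair hy)))

theorem Wf_pr : Primrec₂ Wf := by
  classical
  unfold Wf
  have f1 : Primrec (fun p : (List Bool × List Bool) × ℕ => p.1.1) :=
    Primrec.fst.comp Primrec.fst
  have f2 : Primrec (fun p : (List Bool × List Bool) × ℕ => p.1.2) :=
    Primrec.snd.comp Primrec.fst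
  have hl := lead_pr.comp f1
  refine Primrec.ite ?_ ?_ (Primrec.const none)
  · exact PrimrecRel.comp Primrec.nat_lt hl (Primrec.list_length.comp f1)
  · exact Tf_pr ((Primrec.ofNat Code).comp hl) Primrec.snd
      (Primrec.list_drop.comp (add_pr hl (Primrec.const 1)) f1) f2

theorem Tf_clash {c : Code} {w w' y : List Bool} {t t' : ℕ} {x x' : List Bool} (htt : t ≤ t')
    (h : Tf c w y t = some x) (h' : Tf c w' y t' = some x') (hcmp : cmp w' w) : w = w' := by
  unfold Tf at h h'
  split_ifs at h with h1
  split_ifs at h' with h2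
  rw [Option.bind_eq_some_iff] at h
  obtain ⟨m, h3, _⟩ := h
  by_contra hne
  have h4 := Code.evaln_mono htt h3
  have h5 := Code.evaln_bound h4
  have h6 : Encodable.encode w < t' := by
    refine lt_of_le_of_lt ?_ h5
    rw [Encodable.encode_prod_val]
    exact Nat.left_le_pair _ _
  have h7 := h2 _ h6
  have h8 : clash c t' w' y (Encodable.encode w) = true := by
    rw [clash_iff]
    refine ⟨w, Encodable.encodek w, hne, hcmp, ?_⟩
    rw [Option.mem_def.1 h4]; rfl
  rw [h7] at h8
  exact absurd h8 (by simp)

theorem cmp_symm {w w' : List Bool} (h : cmp w w') : cmp w' w := h.symm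

theorem exists_optimalCondPrefixFree :
    ∃ W : List Bool → List Bool →. List Bool, IsOptimalCondPrefixFree W := by
  refine ⟨fun p y => Nat.rfindOpt (Wf (p, y)), ?_, ?_, ?_⟩
  · exact Partrec.rfindOpt Wf_pr.to_comp
  · intro y p q hp hq hpq
    obtain ⟨t, x, ht⟩ := Nat.rfindOpt_dom.1 hp
    obtain ⟨t', x', ht'⟩ := Nat.rfindOpt_dom.1 hq
    rw [Option.mem_def] at ht ht'
    unfold Wf at ht ht'
    split_ifs at ht with h1
    split_ifs at ht' with h2
    simp only at h1 h2 ht ht'
    have hl := lead_of_prefix hpq h1
    have e1 := parse h1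
    have e2 := parse h2
    rw [hl] at h2 e2 ht'
    have h3 : p.drop (lead p + 1) <+: q.drop (lead p + 1) := by
      obtain ⟨u, rfl⟩ := hpq
      refine ⟨u, ?_⟩
      rw [List.drop_append_of_le_length h1]
    have h4 := cmp_of_prefix h3
    have h5 : p.drop (lead p + 1) = q.drop (lead p + 1) := by
      rcases Nat.le_total t t' with htt | htt
      · exact Tf_clash htt ht ht' h4.symm
      · exact (Tf_clash htt ht' ht h4).symm
    rw [e1, e2, h5]
  · intro M hM hpf
    obtain ⟨c, hc⟩ := exists_code_spec (f := fun a : List Bool × List Bool => M a.1 a.2) hM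
    refine ⟨Encodable.encode c + 1, ?_⟩
    intro p y x hx
    refine ⟨List.replicate (Encodable.encode c) true ++ false :: p, ?_, by simp; omega⟩
    have hWf : ∀ t, Wf (List.replicate (Encodable.encode c) true ++ false :: p, y) t =
        Tf c p y t := by
      intro t
      unfold Wf
      simp only
      rw [lead_eq, drop_eq, Denumerable.ofNat_encode, if_pos (by simp)]
    -- value
    have hval : ∀ t x', Tf c p y t = some x' → x' = x := by
      intro t x' h
      unfold Tf at h
      split_ifs at h with h1
      rw [Option.bind_eq_some_iff] at h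
      obtain ⟨m, h2, h3⟩ := h
      obtain ⟨x'', h4, h5⟩ := (hc (p, y) m).1 (Code.evaln_sound h2)
      rw [← h5, Encodable.encodek, Option.some.injEq] at h3
      rw [← h3]
      exact Part.mem_unique h4 hx
    have hex : ∃ t, Tf c p y t = some x := by
      obtain ⟨t, ht⟩ := Code.evaln_complete.1 ((hc (p, y) _).2 ⟨x, hx, rfl⟩)
      refine ⟨t, ?_⟩
      unfold Tf
      rw [if_pos]
      · rw [Option.bind_eq_some_iff]
        exact ⟨_, ht, Encodable.encodek x⟩
      · intro n _
        by_contra hcon
        rw [Bool.not_eq_false, clash_iff] at hcon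
        obtain ⟨w', _, h2, h3, h4⟩ := hcon
        obtain ⟨m, hm⟩ := Option.isSome_iff_exists.1 h4
        obtain ⟨x', h5, _⟩ := (hc (w', y) m).1 (Code.evaln_sound hm)
        have d1 : (M p y).Dom := Part.dom_iff_mem.2 ⟨_, hx⟩
        have d2 : (M w' y).Dom := Part.dom_iff_mem.2 ⟨_, h5⟩
        rcases prefix_of_cmp h3 with h6 | h6
        · exact h2 (hpf y p w' d1 d2 h6).symm
        · exact h2 (hpf y w' p d2 d1 h6)
    obtain ⟨t, ht⟩ := hex
    have hdom : (Nat.rfindOpt
        (Wf (List.replicate (Encodable.encode c) true ++ false :: p, y))).Dom := by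
      rw [Nat.rfindOpt_dom]
      exact ⟨t, x, by rw [hWf]; exact ht⟩
    obtain ⟨x', hx'⟩ := Part.dom_iff_mem.1 hdom
    obtain ⟨t', ht'⟩ := Nat.rfindOpt_spec hx'
    rw [hWf] at ht'
    have := hval t' x' ht'
    rw [this] at hx'
    exact hx'

theorem exists_optimalPrefixFree : ∃ V : List Bool →. List Bool, IsOptimalPrefixFree V := by
  obtain ⟨W, hW⟩ := exists_optimalCondPrefixFree
  refine ⟨fun p => W p [], ?_, hW.prefixFree [], ?_⟩
  · exact hW.partrec.comp Computable.id (Computable.const [])
  · intro M hM hpf
    obtain ⟨c, hc⟩ := hW.optimal (fun p _ => M p) (hM.comp Computable.fst) (fun _ => hpf)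
    exact ⟨c, fun p x hx => hc p [] x hx⟩

end Pool.Agent.KCN
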