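import Mathlib

/-!
The combinatorial core of the proof that `K(C(n) | n, K(n))` is unbounded: a finite game played
against the approximations of plain complexity (`A t x m` : `C_t(x) ≤ m`), of prefix complexity
(`B t x k` : `K_t(x) ≤ k`) and of the sets `S(x,k)`.
-/

namespace Pool.Agent.KCN

open Finset

/-- the `z`-th element of the `i`-th block of round `r` -/
def el (r i z : ℕ) : ℕ := Nat.pair r (Nat.pair i z)

theorem el_inj {r i z r' i' z' : ℕ} (h : el r i z = el r' i' z') : r = r' ∧ i = i' ∧ z = z' := by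
  unfold el at h
  rw [Nat.pair_eq_pair, Nat.pair_eq_pair] at h
  exact h

/-- logarithm of the block size in round `r` -/
def nn (N g r : ℕ) : ℕ := r * ((N + 1) * g)

/-- level of plain complexity at step `τ` -/
def lv (N g e r τ : ℕ) : ℕ := nn N g r + (N - τ) * g + e

/-- level of prefix complexity for block `i` -/
def kv (N g D e r i : ℕ) : ℕ := nn N g r + (D - i) + e

section defs

variable (A B : ℕ → ℕ → ℕ → Bool) (S : ℕ → ℕ → ℕ → ℕ → Bool) (N g D e : ℕ)

/-- at time `t`, `C_t(x) ≤ L`, `K_t(x) ≤ k` and `C_t(x) ∈ S_t(x,K_t(x))` -/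
def stab1 (t x L k : ℕ) : Prop :=
  ∃ v < L + 1, ∃ κ < k + 1, A t x v = true ∧ (v = 0 ∨ A t x (v - 1) = false) ∧
    B t x κ = true ∧ (κ = 0 ∨ B t x (κ - 1) = false) ∧ S t x κ v = true

/-- the whole block is stable -/
def stabB (t r i τ : ℕ) : Prop :=
  ∀ z < 2 ^ nn N g r, stab1 A B S t (el r i z) (lv N g e r τ) (kv N g D e r i)

/-- the adversary made a big jump -/
def big (t r i τ : ℕ) : Prop :=
  2 ^ nn N g r ≤ 2 * N *
    ((List.range (2 ^ nn N g r)).filter (fun z => A t (el r i z) (lv N g e r (τ + 1)))).length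

open Classical in
/-- one step of the strategy -/
noncomputable def step (t : ℕ) (h : ℕ × ℕ × ℕ × ℕ) : ℕ × ℕ × ℕ × ℕ :=
  if stabB A B S N g D e t h.1 h.2.1 h.2.2.1 then
    (if h.2.2.1 < N then
      (if big A N g e t h.1 h.2.1 h.2.2.1 then
        (h.1, h.2.1 + 1, 0, (h.2.2.2 / 2 ^ (h.2.1 + 1) + 1) * 2 ^ (h.2.1 + 1))
      else (h.1, h.2.1, h.2.2.1 + 1, h.2.2.2))
    else if h.2.2.2 + 2 ^ h.2.1 < 2 ^ (D - 1) then (h.1 + 1, 0, 0, h.2.2.2 + 2 ^ h.2.1)
    else h)
  else h

/-- the state of the strategy at time `t` : (round, block, step, pointer) -/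
noncomputable def hd : ℕ → ℕ × ℕ × ℕ × ℕ
  | 0 => (0, 0, 0, 0)
  | t + 1 => step A B S N g D e t (hd t)

end defs

/-- `b` is a later (or equal) state than `a` -/
def Rel (a b : ℕ × ℕ × ℕ × ℕ) : Prop :=
  (a.1 = b.1 ∧ a.2.1 = b.2.1 ∧ a.2.2.2 = b.2.2.2 ∧ a.2.2.1 ≤ b.2.2.1) ∨
    ((a.1 < b.1 ∨ (a.1 = b.1 ∧ a.2.1 < b.2.1)) ∧ a.2.2.2 + 2 ^ a.2.1 ≤ b.2.2.2)

theorem Rel.refl (a : ℕ × ℕ × ℕ × ℕ) : Rel a a := Or.inl ⟨rfl, rfl, rfl, le_rfl⟩

theorem Rel.trans {a b c : ℕ × ℕ × ℕ × ℕ} (h1 : Rel a b) (h2 : Rel b c) : Rel a c := by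
  obtain ⟨a1, a2, a3, a4⟩ := a
  obtain ⟨b1, b2, b3, b4⟩ := b
  obtain ⟨c1, c2, c3, c4⟩ := c
  unfold Rel at *
  simp only at *
  rcases h1 with ⟨rfl, rfl, rfl, h1⟩ | ⟨h1, h1'⟩
  · rcases h2 with ⟨rfl, rfl, rfl, h2⟩ | ⟨h2, h2'⟩
    · left; exact ⟨rfl, rfl, rfl, by omega⟩
    · right; exact ⟨h2, h2'⟩
  · rcases h2 with ⟨rfl, rfl, rfl, h2⟩ | ⟨h2, h2'⟩
    · right; exact ⟨h1, h1'⟩
    · right
      refine ⟨by omega, ?_⟩
      have : 0 ≤ 2 ^ b2 := Nat.zero_le _
      omega

theorem align_aux {i p : ℕ} (h : 2 ^ i ∣ p) :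
    p + 2 ^ i ≤ (p / 2 ^ (i + 1) + 1) * 2 ^ (i + 1) ∧
      (p / 2 ^ (i + 1) + 1) * 2 ^ (i + 1) ≤ p + 2 ^ (i + 1) := by
  obtain ⟨m, rfl⟩ := h
  have h1 : 2 ^ i * m / 2 ^ (i + 1) = m / 2 := by
    rw [pow_succ, Nat.mul_div_mul_left _ _ (by positivity)]
  rw [h1, pow_succ]
  have h2 : m + 1 ≤ (m / 2 + 1) * 2 := by omega
  have h3 : (m / 2 + 1) * 2 ≤ m + 2 := by omega
  constructor
  · calc 2 ^ i * m + 2 ^ i = (m + 1) * 2 ^ i := by ring
      _ ≤ ((m / 2 + 1) * 2) * 2 ^ i := Nat.mul_le_mul_right _ h2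
      _ = (m / 2 + 1) * (2 ^ i * 2) := by ring
  · calc (m / 2 + 1) * (2 ^ i * 2) = ((m / 2 + 1) * 2) * 2 ^ i := by ring
      _ ≤ (m + 2) * 2 ^ i := Nat.mul_le_mul_right _ h3
      _ = 2 ^ i * m + 2 ^ i * 2 := by ring

section facts

variable {A B : ℕ → ℕ → ℕ → Bool} {S : ℕ → ℕ → ℕ → ℕ → Bool} {N g D e : ℕ}

/-- the possible outcomes of one step -/
theorem step_cases (t : ℕ) (h : ℕ × ℕ × ℕ × ℕ) :
    step A B S N g D e t h = h ∨
    (stabB A B S N g D e t h.1 h.2.1 h.2.2.1 ∧ h.2.2.1 < N ∧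
      big A N g e t h.1 h.2.1 h.2.2.1 ∧
      step A B S N g D e t h =
        (h.1, h.2.1 + 1, 0, (h.2.2.2 / 2 ^ (h.2.1 + 1) + 1) * 2 ^ (h.2.1 + 1))) ∨
    (stabB A B S N g D e t h.1 h.2.1 h.2.2.1 ∧ h.2.2.1 < N ∧
      ¬ big A N g e t h.1 h.2.1 h.2.2.1 ∧
      step A B S N g D e t h = (h.1, h.2.1, h.2.2.1 + 1, h.2.2.2)) ∨
    (stabB A B S N g D e t h.1 h.2.1 h.2.2.1 ∧ N ≤ h.2.2.1 ∧
      h.2.2.2 + 2 ^ h.2.1 < 2 ^ (D - 1) ∧
      step A B S N g D e t h = (h.1 + 1, 0, 0, h.2.2.2 + 2 ^ h.2.1)) := by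
  unfold step
  by_cases h1 : stabB A B S N g D e t h.1 h.2.1 h.2.2.1
  · by_cases h2 : h.2.2.1 < N
    · by_cases h3 : big A N g e t h.1 h.2.1 h.2.2.1
      · right; left; simp [h1, h2, h3]
      · right; right; left; simp [h1, h2, h3]
    · by_cases h3 : h.2.2.2 + 2 ^ h.2.1 < 2 ^ (D - 1)
      · right; right; right; simp only [h1, h2, h3, if_true, if_false, true_and, and_true]; omega
      · left; simp [h1, h2, h3]
  · left; simp [h1]

theorem hd_succ (t : ℕ) : hd A B S N g D e (t + 1) = step A B S N g D e t (hd A B S N g D e t) :=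
  rfl

theorem aligned (t : ℕ) : 2 ^ (hd A B S N g D e t).2.1 ∣ (hd A B S N g D e t).2.2.2 := by
  induction t with
  | zero => simp [hd]
  | succ t ih =>
    rw [hd_succ]
    rcases step_cases (A := A) (B := B) (S := S) (N := N) (g := g) (D := D) (e := e) t
      (hd A B S N g D e t) with h | ⟨_, _, _, h⟩ | ⟨_, _, _, h⟩ | ⟨_, _, _, h⟩
    · rw [h]; exact ih
    · rw [h]; exact Dvd.intro_left _ rfl
    · rw [h]; exact ih
    · rw [h]; simp

theorem rel_step (t : ℕ) : Rel (hd A B S N g D e t) (hd A B S N g D e (t + 1)) := by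
  rw [hd_succ]
  have hal := aligned (A := A) (B := B) (S := S) (N := N) (g := g) (D := D) (e := e) t
  rcases step_cases (A := A) (B := B) (S := S) (N := N) (g := g) (D := D) (e := e) t
    (hd A B S N g D e t) with h | ⟨_, _, _, h⟩ | ⟨_, _, _, h⟩ | ⟨_, _, _, h⟩
  · rw [h]; exact Rel.refl _
  · rw [h]; right
    exact ⟨Or.inr ⟨rfl, Nat.lt_succ_self _⟩, (align_aux hal).1⟩
  · rw [h]; left
    exact ⟨rfl, rfl, rfl, Nat.le_succ _⟩
  · rw [h]; right
    exact ⟨Or.inl (Nat.lt_succ_self _), le_rfl⟩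

theorem rel_le {t t' : ℕ} (h : t ≤ t') : Rel (hd A B S N g D e t) (hd A B S N g D e t') := by
  induction t', h using Nat.le_induction with
  | base => exact Rel.refl _
  | succ n _ ih => exact ih.trans (rel_step n)

/-- Blocks that won: stable at all steps, no big jump. -/
def Won (A B : ℕ → ℕ → ℕ → Bool) (S : ℕ → ℕ → ℕ → ℕ → Bool) (N g D e : ℕ) (r i : ℕ) : Prop :=
  (∀ τ < N, ∃ t, stabB A B S N g D e t r i τ ∧ ¬ big A N g e t r i τ) ∧
    ∃ t, stabB A B S N g D e t r i N

/-- The invariant of the current state. -/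
theorem inv (t : ℕ) :
    (hd A B S N g D e t).2.2.2 + 2 ≤ 2 ^ (D - 1) + 2 ^ ((hd A B S N g D e t).2.1 + 1) ∧
    (hd A B S N g D e t).1 ≤ (hd A B S N g D e t).2.2.2 ∧
    (hd A B S N g D e t).2.2.1 ≤ N ∧
    (∀ τ < (hd A B S N g D e t).2.2.1, ∃ t', stabB A B S N g D e t' (hd A B S N g D e t).1
      (hd A B S N g D e t).2.1 τ ∧ ¬ big A N g e t' (hd A B S N g D e t).1
      (hd A B S N g D e t).2.1 τ) ∧
    (∃ ι : ℕ → ℕ, (∀ r < (hd A B S N g D e t).1, Won A B S N g D e r (ι r) ∧
        ∃ t', (hd A B S N g D e t').2.1 = ι r) ∧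
      (hd A B S N g D e t).2.2.2 + 2 ≤
        3 * ∑ r ∈ range (hd A B S N g D e t).1, 2 ^ (ι r) +
          2 ^ ((hd A B S N g D e t).2.1 + 1)) ∧
    (∀ i ≤ (hd A B S N g D e t).2.1, ∃ t' ≤ t, (hd A B S N g D e t').1 = (hd A B S N g D e t).1 ∧
      (hd A B S N g D e t').2.1 = i ∧ (hd A B S N g D e t').2.2.1 = 0) := by
  induction t with
  | zero =>
    refine ⟨by simp [hd], by simp [hd], by simp [hd], by simp [hd], ⟨fun _ => 0, ?_, ?_⟩, ?_⟩
    · intro r hr; simp [hd] at hr
    · simp [hd]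
    · intro i hi
      simp [hd] at hi
      exact ⟨0, le_rfl, rfl, by simp [hd, hi], by simp [hd]⟩
  | succ t ih =>
    obtain ⟨h1, h2, h3, h4, ⟨ι, h5, h6⟩, h7⟩ := ih
    have hal := aligned (A := A) (B := B) (S := S) (N := N) (g := g) (D := D) (e := e) t
    rcases step_cases (A := A) (B := B) (S := S) (N := N) (g := g) (D := D) (e := e) t
      (hd A B S N g D e t) with h | ⟨hs, hN, hb, h⟩ | ⟨hs, hN, hb, h⟩ | ⟨hs, hN, hb, h⟩
    · rw [hd_succ, h]
      refine ⟨h1, h2, h3, h4, ⟨ι, h5, h6⟩, ?_⟩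
      intro i hi
      obtain ⟨t', ht', h⟩ := h7 i hi
      exact ⟨t', by omega, h⟩
    · have e1 := hd_succ (A := A) (B := B) (S := S) (N := N) (g := g) (D := D) (e := e) t
      rw [h] at e1
      have hh := align_aux hal
      rw [e1]
      refine ⟨?_, ?_, Nat.zero_le _, ?_, ⟨ι, h5, ?_⟩, ?_⟩
      · simp only
        rw [pow_succ 2 ((hd A B S N g D e t).2.1 + 1)]
        omega
      · simp only
        have : 0 < 2 ^ (hd A B S N g D e t).2.1 := by positivity
        omega
      · intro τ hτ; simp at hτ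
      · simp only
        rw [pow_succ 2 ((hd A B S N g D e t).2.1 + 1)]
        omega
      · intro i hi
        simp only at hi
        rcases Nat.lt_or_ge i ((hd A B S N g D e t).2.1 + 1) with hlt | hge
        · obtain ⟨t', ht', h⟩ := h7 i (by omega)
          exact ⟨t', by omega, h⟩
        · refine ⟨t + 1, le_rfl, ?_, ?_, ?_⟩
          · rw [e1]
          · rw [e1]; simp only; omega
          · rw [e1]
    · have e1 := hd_succ (A := A) (B := B) (S := S) (N := N) (g := g) (D := D) (e := e) t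
      rw [h] at e1
      rw [e1]
      refine ⟨h1, h2, hN, ?_, ⟨ι, h5, h6⟩, ?_⟩
      · intro τ hτ
        simp only at hτ ⊢
        rcases Nat.lt_or_ge τ ((hd A B S N g D e t).2.2.1) with hlt | hge
        · exact h4 τ hlt
        · have : τ = (hd A B S N g D e t).2.2.1 := by omega
          subst this
          exact ⟨t, hs, hb⟩
      · intro i hi
        simp only at hi ⊢
        obtain ⟨t', ht', h⟩ := h7 i (by omega)
        exact ⟨t', by omega, h⟩
    · have e1 := hd_succ (A := A) (B := B) (S := S) (N := N) (g := g) (D := D) (e := e) t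
      rw [h] at e1
      rw [e1]
      have hNe : (hd A B S N g D e t).2.2.1 = N := by omega
      have hwon : Won A B S N g D e (hd A B S N g D e t).1 (hd A B S N g D e t).2.1 := by
        rw [hNe] at hs
        exact ⟨fun τ hτ => h4 τ (by omega), t, hs⟩
      refine ⟨?_, ?_, Nat.zero_le _, ?_,
        ⟨fun r => if r = (hd A B S N g D e t).1 then (hd A B S N g D e t).2.1 else ι r, ?_, ?_⟩, ?_⟩
      · simp only; omega
      · simp only
        have : 0 < 2 ^ (hd A B S N g D e t).2.1 := by positivity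
        omega
      · intro τ hτ; simp at hτ
      · intro r hr
        simp only at hr ⊢
        by_cases hr' : r = (hd A B S N g D e t).1
        · rw [if_pos hr', hr']; exact ⟨hwon, t, rfl⟩
        · rw [if_neg hr']; exact h5 r (by omega)
      · simp only
        rw [sum_range_succ, if_pos rfl]
        have : ∑ x ∈ range (hd A B S N g D e t).1,
            2 ^ (if x = (hd A B S N g D e t).1 then (hd A B S N g D e t).2.1 else ι x) =
            ∑ x ∈ range (hd A B S N g D e t).1, 2 ^ (ι x) := by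
          apply sum_congr rfl
          intro x hx
          rw [if_neg (by have := mem_range.1 hx; omega)]
        rw [this]
        rw [pow_succ] at h6
        omega
      · intro i hi
        simp only at hi
        refine ⟨t + 1, le_rfl, ?_, ?_, ?_⟩
        · rw [e1]
        · rw [e1]; simp only; omega
        · rw [e1]

/-- a state with `τ < N`, once left, is followed by the next step or the block made a big jump. -/
theorem factC {t1 : ℕ} (hN : (hd A B S N g D e t1).2.2.1 < N) {t : ℕ} (ht : t1 ≤ t) :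
    hd A B S N g D e t = hd A B S N g D e t1 ∨
    (∃ t2 ≤ t, (hd A B S N g D e t2).1 = (hd A B S N g D e t1).1 ∧
      (hd A B S N g D e t2).2.1 = (hd A B S N g D e t1).2.1 ∧
      (hd A B S N g D e t2).2.2.1 = (hd A B S N g D e t1).2.2.1 + 1) ∨
    (∃ t', big A N g e t' (hd A B S N g D e t1).1 (hd A B S N g D e t1).2.1
      (hd A B S N g D e t1).2.2.1) := by
  induction t, ht using Nat.le_induction with
  | base => left; rfl
  | succ t ht ih =>
    rcases ih with ih | ⟨t2, ht2, ih⟩ | ih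
    · rw [hd_succ]
      rcases step_cases (A := A) (B := B) (S := S) (N := N) (g := g) (D := D) (e := e) t
        (hd A B S N g D e t) with h | ⟨hs, hN', hb, h⟩ | ⟨hs, hN', hb, h⟩ | ⟨hs, hN', hb, h⟩
      · left; rw [h, ih]
      · right; right; rw [ih] at hb; exact ⟨t, hb⟩
      · right; left
        refine ⟨t + 1, le_rfl, ?_⟩
        rw [hd_succ, h, ih]
        exact ⟨rfl, rfl, rfl⟩
      · rw [ih] at hN'; omega
    · right; left; exact ⟨t2, by omega, ih⟩
    · right; right; exact ih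

/-- a state at step `N`, once left, is followed by a new round. -/
theorem factD {t1 : ℕ} (hN : (hd A B S N g D e t1).2.2.1 = N) {t : ℕ} (ht : t1 ≤ t) :
    hd A B S N g D e t = hd A B S N g D e t1 ∨
      (hd A B S N g D e t1).1 < (hd A B S N g D e t).1 := by
  induction t, ht using Nat.le_induction with
  | base => left; rfl
  | succ t ht ih =>
    rcases ih with ih | ih
    · rw [hd_succ]
      rcases step_cases (A := A) (B := B) (S := S) (N := N) (g := g) (D := D) (e := e) t
        (hd A B S N g D e t) with h | ⟨hs, hN', hb, h⟩ | ⟨hs, hN', hb, h⟩ | ⟨hs, hN', hb, h⟩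
      · left; rw [h, ih]
      · rw [ih] at hN'; omega
      · rw [ih] at hN'; omega
      · right; rw [h, ih]; exact Nat.lt_succ_self _
    · right
      have := rel_step (A := A) (B := B) (S := S) (N := N) (g := g) (D := D) (e := e) t
      unfold Rel at this
      omega

/-- the blocks of round `r` which have reached step `τ` by time `t` -/
noncomputable def Iset (A B : ℕ → ℕ → ℕ → Bool) (S : ℕ → ℕ → ℕ → ℕ → Bool) (N g D e : ℕ)
    (t r τ : ℕ) : Finset ℕ :=
  ((range (t + 1)).filter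
    (fun t' => (hd A B S N g D e t').1 = r ∧ (hd A B S N g D e t').2.2.1 = τ)).image
    (fun t' => (hd A B S N g D e t').2.1)

theorem mem_Iset {t r τ i : ℕ} : i ∈ Iset A B S N g D e t r τ ↔
    ∃ t' ≤ t, (hd A B S N g D e t').1 = r ∧ (hd A B S N g D e t').2.1 = i ∧
      (hd A B S N g D e t').2.2.1 = τ := by
  unfold Iset
  simp only [mem_image, mem_filter, mem_range]
  constructor
  · rintro ⟨t', ⟨h1, h2, h3⟩, h4⟩
    exact ⟨t', by omega, h2, h4, h3⟩
  · rintro ⟨t', h1, h2, h3, h4⟩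
    exact ⟨t', ⟨by omega, h2, h4⟩, h3⟩

theorem card_Iset_N (t r : ℕ) : (Iset A B S N g D e t r N).card ≤ 1 := by
  rw [card_le_one]
  have key : ∀ t1 t2, t1 ≤ t2 → (hd A B S N g D e t1).1 = r → (hd A B S N g D e t2).1 = r →
      (hd A B S N g D e t1).2.2.1 = N → (hd A B S N g D e t2).2.2.1 = N →
      (hd A B S N g D e t1).2.1 = (hd A B S N g D e t2).2.1 := by
    intro t1 t2 h12 h1 h2 h3 h4
    rcases factD h3 h12 with h | h
    · rw [h]
    · omega
  intro i hi i' hi'
  rw [mem_Iset] at hi hi'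
  obtain ⟨t1, _, h1, h2, h3⟩ := hi
  obtain ⟨t2, _, h1', h2', h3'⟩ := hi'
  rcases Nat.le_total t1 t2 with h | h
  · rw [← h2, ← h2']; exact key _ _ h h1 h1' h3 h3'
  · rw [← h2, ← h2']; exact (key _ _ h h1' h1 h3' h3).symm

theorem card_filter_range (p : ℕ → Bool) (k : ℕ) :
    ((Finset.range k).filter (fun z => p z = true)).card = ((List.range k).filter p).length := by
  simp [Finset.card, Finset.filter, Finset.range, Multiset.range]

theorem card_big (budA : ∀ m (X : Finset ℕ), (∀ x ∈ X, ∃ t, A t x m = true) → X.card < 2 ^ (m + 1))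
    {r τ : ℕ} (J : Finset ℕ) (hJ : ∀ i ∈ J, ∃ t', big A N g e t' r i τ) :
    J.card ≤ N * 2 ^ ((N - (τ + 1)) * g + e + 2) := by
  classical
  choose! T hT using hJ
  set n := nn N g r with hn
  set Z : ℕ → Finset ℕ := fun i =>
    (range (2 ^ n)).filter (fun z => A (T i) (el r i z) (lv N g e r (τ + 1)) = true) with hZ
  have hZc : ∀ i ∈ J, 2 ^ n ≤ 2 * N * (Z i).card := by
    intro i hi
    have := hT i hi
    unfold big at this
    rw [hZ]
    simp only
    rw [card_filter_range]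
    exact this
  set X : Finset ℕ := (J.sigma Z).image (fun q => el r q.1 q.2) with hX
  have hXc : X.card = ∑ i ∈ J, (Z i).card := by
    rw [hX, card_image_of_injective, card_sigma]
    rintro ⟨i, z⟩ ⟨i', z'⟩ h
    have := el_inj h
    simp only at this
    obtain ⟨_, rfl, rfl⟩ := this
    rfl
  have hb := budA (lv N g e r (τ + 1)) X (by
    intro x hx
    rw [hX, mem_image] at hx
    obtain ⟨⟨i, z⟩, hq, rfl⟩ := hx
    rw [mem_sigma] at hq
    simp only [hZ, mem_filter] at hq
    exact ⟨T i, hq.2.2⟩)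
  have h1 : J.card * 2 ^ n ≤ 2 * N * X.card := by
    rw [hXc, mul_sum]
    calc J.card * 2 ^ n = ∑ i ∈ J, 2 ^ n := by rw [sum_const, smul_eq_mul]
      _ ≤ ∑ i ∈ J, 2 * N * (Z i).card := sum_le_sum hZc
  have h2 : J.card * 2 ^ n ≤ 2 * N * 2 ^ (lv N g e r (τ + 1) + 1) :=
    h1.trans (Nat.mul_le_mul_left _ hb.le)
  have h3 : 2 * N * 2 ^ (lv N g e r (τ + 1) + 1) =
      N * 2 ^ ((N - (τ + 1)) * g + e + 2) * 2 ^ n := by
    unfold lv
    rw [← hn]
    rw [show n + (N - (τ + 1)) * g + e + 1 = ((N - (τ + 1)) * g + e + 1) + n by ring, pow_add,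
      show (N - (τ + 1)) * g + e + 2 = ((N - (τ + 1)) * g + e + 1) + 1 by ring, pow_succ]
    ring
  rw [h3] at h2
  exact Nat.le_of_mul_le_mul_right h2 (by positivity)

/-- capacity bound -/
theorem card_Iset_le
    (budA : ∀ m (X : Finset ℕ), (∀ x ∈ X, ∃ t, A t x m = true) → X.card < 2 ^ (m + 1))
    (hg : 2 + N * 2 ^ (e + 2) ≤ 2 ^ g) (t r : ℕ) (d : ℕ) (hd' : d ≤ N) :
    (Iset A B S N g D e t r (N - d)).card ≤ 2 ^ (d * g) := by
  induction d with
  | zero => simpa using card_Iset_N t r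
  | succ d ih =>
    have ih := ih (by omega)
    set τ := N - (d + 1) with hτ
    have hτ1 : N - d = τ + 1 := by omega
    rw [hτ1] at ih
    classical
    set J := (Iset A B S N g D e t r τ).filter (fun i => ∃ t', big A N g e t' r i τ) with hJ
    have hsub : Iset A B S N g D e t r τ ⊆
        Iset A B S N g D e t r (τ + 1) ∪ J ∪ {(hd A B S N g D e t).2.1} := by
      intro i hi
      have hi0 := hi
      rw [mem_Iset] at hi
      obtain ⟨t1, ht1, h1, h2, h3⟩ := hi
      have hlt : (hd A B S N g D e t1).2.2.1 < N := by omega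
      rcases factC hlt ht1 with h | ⟨t2, ht2, h, h', h''⟩ | ⟨t', h⟩
      · simp only [mem_union, mem_singleton]
        right; rw [h, h2]
      · simp only [mem_union, mem_singleton]
        left; left
        rw [mem_Iset]
        exact ⟨t2, ht2, by omega, by omega, by omega⟩
      · simp only [mem_union, mem_singleton]
        left; right
        rw [hJ, mem_filter]
        refine ⟨hi0, t', ?_⟩
        rw [h1, h2, h3] at h
        exact h
    have hJc : J.card ≤ N * 2 ^ ((N - (τ + 1)) * g + e + 2) :=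
      card_big budA J (by
        intro i hi
        rw [hJ, mem_filter] at hi
        exact hi.2)
    have hd2 : N - (τ + 1) = d := by omega
    rw [hd2] at hJc
    calc (Iset A B S N g D e t r τ).card
        ≤ (Iset A B S N g D e t r (τ + 1) ∪ J ∪ {(hd A B S N g D e t).2.1}).card :=
          card_le_card hsub
      _ ≤ (Iset A B S N g D e t r (τ + 1)).card + J.card + 1 := by
          refine (card_union_le _ _).trans ?_
          rw [card_singleton]
          exact Nat.add_le_add_right (card_union_le _ _) 1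
      _ ≤ 2 ^ (d * g) + N * 2 ^ (d * g + e + 2) + 1 := by omega
      _ ≤ 2 ^ (d * g) * (2 + N * 2 ^ (e + 2)) := by
          have h1 : 1 ≤ 2 ^ (d * g) := Nat.one_le_two_pow
          have h2 : N * 2 ^ (d * g + e + 2) = 2 ^ (d * g) * (N * 2 ^ (e + 2)) := by
            rw [show d * g + e + 2 = d * g + (e + 2) by ring, pow_add]; ring
          rw [h2, mul_add]
          omega
      _ ≤ 2 ^ (d * g) * 2 ^ g := Nat.mul_le_mul_left _ hg
      _ = 2 ^ ((d + 1) * g) := by rw [← pow_add]; ring_nf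

/-- number of blocks in a round is bounded -/
theorem block_lt
    (budA : ∀ m (X : Finset ℕ), (∀ x ∈ X, ∃ t, A t x m = true) → X.card < 2 ^ (m + 1))
    (hg : 2 + N * 2 ^ (e + 2) ≤ 2 ^ g) (t : ℕ) :
    (hd A B S N g D e t).2.1 < 2 ^ (N * g) := by
  have h := card_Iset_le (D := D) (B := B) (S := S) budA hg t (hd A B S N g D e t).1 N le_rfl
  rw [Nat.sub_self] at h
  have h2 : range ((hd A B S N g D e t).2.1 + 1) ⊆
      Iset A B S N g D e t (hd A B S N g D e t).1 0 := by
    intro i hi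
    rw [mem_range] at hi
    rw [mem_Iset]
    obtain ⟨t', h1, h2, h3, h4⟩ := (inv (A := A) (B := B) (S := S) (N := N) (g := g) (D := D)
      (e := e) t).2.2.2.2.2 i (by omega)
    exact ⟨t', h1, h2, h3, h4⟩
  have h3 := card_le_card h2
  rw [card_range] at h3
  omega

open Classical in
/-- The number of earlier blocks of the round which have reached step `τ`. -/
noncomputable def rank (A B : ℕ → ℕ → ℕ → Bool) (S : ℕ → ℕ → ℕ → ℕ → Bool) (N g D e : ℕ)
    (t : ℕ) (h : ℕ × ℕ × ℕ × ℕ) : ℕ :=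
  ((List.range h.2.1).filter (fun i => decide (∃ t' < t + 1, (hd A B S N g D e t').1 = h.1 ∧
    (hd A B S N g D e t').2.1 = i ∧ (hd A B S N g D e t').2.2.1 = h.2.2.1))).length

theorem rank_eq (t : ℕ) (h : ℕ × ℕ × ℕ × ℕ) : rank A B S N g D e t h =
    ((Iset A B S N g D e t h.1 h.2.2.1).filter (fun i => i < h.2.1)).card := by
  classical
  unfold rank
  rw [← card_filter_range]
  congr 1
  ext i
  rw [mem_filter, mem_filter, mem_Iset, mem_range]
  simp only [decide_eq_true_eq]
  constructor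
  · rintro ⟨h1, t', h2, h3⟩
    exact ⟨⟨t', by omega, h3⟩, h1⟩
  · rintro ⟨⟨t', h2, h3⟩, h1⟩
    exact ⟨h1, t', by omega, h3⟩

theorem rank_lt
    (budA : ∀ m (X : Finset ℕ), (∀ x ∈ X, ∃ t, A t x m = true) → X.card < 2 ^ (m + 1))
    (hg : 2 + N * 2 ^ (e + 2) ≤ 2 ^ g) (t : ℕ) :
    rank A B S N g D e t (hd A B S N g D e t) < 2 ^ ((N - (hd A B S N g D e t).2.2.1) * g) := by
  set h := hd A B S N g D e t with hh
  have hτ : h.2.2.1 ≤ N := (inv (A := A) (B := B) (S := S) (N := N) (g := g) (D := D)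
      (e := e) t).2.2.1
  have hc := card_Iset_le (D := D) (B := B) (S := S) budA hg t h.1 (N - h.2.2.1) (by omega)
  rw [show N - (N - h.2.2.1) = h.2.2.1 by omega] at hc
  refine lt_of_lt_of_le ?_ hc
  rw [rank_eq]
  apply card_lt_card
  rw [ssubset_iff_of_subset (filter_subset _ _)]
  refine ⟨h.2.1, ?_, ?_⟩
  · rw [mem_Iset]; exact ⟨t, le_rfl, by rw [← hh], by rw [← hh], by rw [← hh]⟩
  · simp

/-- the rank and the step determine the block -/
theorem rank_inj {t t' : ℕ} (h1 : (hd A B S N g D e t).1 = (hd A B S N g D e t').1)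
    (h2 : (hd A B S N g D e t).2.2.1 = (hd A B S N g D e t').2.2.1)
    (h3 : rank A B S N g D e t (hd A B S N g D e t) =
      rank A B S N g D e t' (hd A B S N g D e t')) :
    (hd A B S N g D e t).2.1 = (hd A B S N g D e t').2.1 := by
  have key : ∀ t t', t ≤ t' → (hd A B S N g D e t).1 = (hd A B S N g D e t').1 →
      (hd A B S N g D e t).2.2.1 = (hd A B S N g D e t').2.2.1 →
      rank A B S N g D e t (hd A B S N g D e t) =
      rank A B S N g D e t' (hd A B S N g D e t') →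
      (hd A B S N g D e t).2.1 = (hd A B S N g D e t').2.1 := by
    intro t t' htt h1 h2 h3
    have hrel := rel_le (A := A) (B := B) (S := S) (N := N) (g := g) (D := D) (e := e) htt
    by_contra hne
    have hlt : (hd A B S N g D e t).2.1 < (hd A B S N g D e t').2.1 := by
      unfold Rel at hrel; omega
    rw [rank_eq, rank_eq] at h3
    have : ((Iset A B S N g D e t (hd A B S N g D e t).1 (hd A B S N g D e t).2.2.1).filter
        (fun i => i < (hd A B S N g D e t).2.1)) ⊂
        ((Iset A B S N g D e t' (hd A B S N g D e t').1 (hd A B S N g D e t').2.2.1).filter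
        (fun i => i < (hd A B S N g D e t').2.1)) := by
      rw [ssubset_iff_of_subset]
      · refine ⟨(hd A B S N g D e t).2.1, ?_, ?_⟩
        · rw [mem_filter, mem_Iset]
          exact ⟨⟨t, htt, h1, rfl, h2⟩, hlt⟩
        · simp
      · intro i hi
        rw [mem_filter, mem_Iset] at hi ⊢
        obtain ⟨⟨t1, ha, hb, hc, hd⟩, he⟩ := hi
        exact ⟨⟨t1, by omega, by omega, by omega, by omega⟩, by omega⟩
    have := card_lt_card this
    omega
  rcases Nat.le_total t t' with h | h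
  · exact key t t' h h1 h2 h3
  · exact (key t' t h h1.symm h2.symm h3.symm).symm

theorem lv_anti {r τ τ' : ℕ} (h : τ ≤ τ') : lv N g e r τ' ≤ lv N g e r τ := by
  unfold lv
  have : (N - τ') * g ≤ (N - τ) * g := Nat.mul_le_mul_right _ (by omega)
  omega

/-- In a block that won, more than half of the elements have lost `s` in prefix complexity. -/
theorem won_surv {b s : ℕ}
    (monoA : ∀ t x m m', m ≤ m' → A t x m = true → A t x m' = true)
    (budS : ∀ x κ (V : Finset ℕ), (∀ v ∈ V, ∃ t, S t x κ v = true) → V.card ≤ b)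
    (hNbs : N = b * s) (hN : 0 < N) {r i : ℕ} (h : Won A B S N g D e r i) :
    ∃ Z ⊆ range (2 ^ nn N g r), 2 ^ nn N g r < 2 * Z.card ∧
      ∀ z ∈ Z, ∃ κ, κ + s ≤ kv N g D e r i ∧ ∃ t, B t (el r i z) κ = true := by
  classical
  obtain ⟨h1, TN, hTN⟩ := h
  choose! T hT using h1
  set T' : ℕ → ℕ := fun τ => if τ < N then T τ else TN with hT'
  have hst : ∀ τ ≤ N, stabB A B S N g D e (T' τ) r i τ := by
    intro τ hτ
    by_cases h : τ < N
    · simp only [hT', h, if_true]; exact (hT τ h).1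
    · have : τ = N := by omega
      subst this
      simp only [hT', lt_irrefl, if_false]; exact hTN
  have hnb : ∀ τ < N, ¬ big A N g e (T' τ) r i τ := by
    intro τ h
    simp only [hT', h, if_true]; exact (hT τ h).2
  set n := nn N g r with hn
  set Y : ℕ → Finset ℕ := fun τ =>
    (range (2 ^ n)).filter (fun z => A (T' τ) (el r i z) (lv N g e r (τ + 1)) = true) with hY
  have hYc : ∀ τ < N, 2 * N * (Y τ).card < 2 ^ n := by
    intro τ hτ
    have := hnb τ hτ
    unfold big at this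
    rw [not_le] at this
    rw [hY]
    simp only
    rw [card_filter_range]
    exact this
  set Z := range (2 ^ n) \ (range N).biUnion Y with hZ
  refine ⟨Z, sdiff_subset, ?_, ?_⟩
  · have h1 : ((range N).biUnion Y).card ≤ ∑ τ ∈ range N, (Y τ).card := card_biUnion_le
    have h2 : 2 * N * (∑ τ ∈ range N, (Y τ).card) + N ≤ N * 2 ^ n := by
      rw [mul_sum]
      calc ∑ τ ∈ range N, 2 * N * (Y τ).card + N
          = ∑ τ ∈ range N, (2 * N * (Y τ).card + 1) := by
            rw [sum_add_distrib]; simp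
        _ ≤ ∑ τ ∈ range N, 2 ^ n := sum_le_sum (fun τ hτ => by
            have := hYc τ (mem_range.1 hτ); omega)
        _ = N * 2 ^ n := by simp
    have h3 : 2 * (∑ τ ∈ range N, (Y τ).card) < 2 ^ n := by
      have : N * (2 * (∑ τ ∈ range N, (Y τ).card)) < N * 2 ^ n := by
        have : N * (2 * (∑ τ ∈ range N, (Y τ).card)) = 2 * N * (∑ τ ∈ range N, (Y τ).card) := by
          ring
        omega
      exact Nat.lt_of_mul_lt_mul_left this
    have h4 : 2 ^ n ≤ Z.card + ((range N).biUnion Y).card := by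
      have := le_card_sdiff ((range N).biUnion Y) (range (2 ^ n))
      rw [card_range, ← hZ] at this
      omega
    omega
  · intro z hz
    rw [hZ, mem_sdiff, mem_biUnion] at hz
    obtain ⟨hz1, hz2⟩ := hz
    push Not at hz2
    have hzn : z < 2 ^ n := mem_range.1 hz1
    have hsur : ∀ τ < N, ¬ A (T' τ) (el r i z) (lv N g e r (τ + 1)) = true := by
      intro τ hτ hc
      exact hz2 τ (mem_range.2 hτ) (by rw [hY]; simp only [mem_filter]; exact ⟨hz1, hc⟩)
    have hex : ∀ τ ≤ N, ∃ v κ, v ≤ lv N g e r τ ∧ κ ≤ kv N g D e r i ∧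
        A (T' τ) (el r i z) v = true ∧ B (T' τ) (el r i z) κ = true ∧
        S (T' τ) (el r i z) κ v = true := by
      intro τ hτ
      obtain ⟨v, hv, κ, hκ, h1, _, h2, _, h3⟩ := hst τ hτ z hzn
      exact ⟨v, κ, by omega, by omega, h1, h2, h3⟩
    choose! v κ hv hκ hA hB hS using hex
    by_contra hcon
    push Not at hcon
    have hκ2 : ∀ τ ≤ N, kv N g D e r i < κ τ + s := by
      intro τ hτ
      by_contra hlt
      exact hcon (κ τ) (by omega) (T' τ) (hB τ hτ)
    have hvlt : ∀ τ τ', τ < τ' → τ' ≤ N → v τ' < v τ := by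
      intro τ τ' h1 h2
      have h3 : lv N g e r τ' ≤ lv N g e r (τ + 1) := lv_anti (by omega)
      have h4 := hv τ' h2
      have h5 : lv N g e r (τ + 1) < v τ := by
        by_contra h
        exact hsur τ (by omega) (monoA _ _ _ _ (by omega) (hA τ (by omega)))
      omega
    set tgt := (range (kv N g D e r i + 1)).filter (fun κ => kv N g D e r i < κ + s) with htgt
    have htc : tgt.card ≤ s := by
      have : tgt ⊆ (range s).image (fun j => kv N g D e r i - j) := by
        intro a ha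
        rw [htgt, mem_filter, mem_range] at ha
        rw [mem_image]
        exact ⟨kv N g D e r i - a, mem_range.2 (by omega), by omega⟩
      refine (card_le_card this).trans ?_
      refine card_image_le.trans ?_
      rw [card_range]
    have hmaps : ∀ τ ∈ range (N + 1), κ τ ∈ tgt := by
      intro τ hτ
      have hτ := mem_range.1 hτ
      rw [htgt, mem_filter, mem_range]
      exact ⟨by have := hκ τ (by omega); omega, hκ2 τ (by omega)⟩
    obtain ⟨y, hy, hy2⟩ := exists_lt_card_fiber_of_mul_lt_card_of_maps_to (n := b) hmaps (by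
      rw [card_range]
      calc tgt.card * b ≤ s * b := Nat.mul_le_mul_right _ htc
        _ = N := by rw [hNbs]; ring
        _ < N + 1 := Nat.lt_succ_self _)
    set F := (range (N + 1)).filter (fun τ => κ τ = y) with hF
    have hinj : Set.InjOn v F := by
      intro τ h1 τ' h2 h12
      rw [hF] at h1 h2
      rw [mem_coe, mem_filter, mem_range] at h1 h2
      rcases Nat.lt_trichotomy τ τ' with h | h | h
      · have := hvlt τ τ' h (by omega); omega
      · exact h
      · have := hvlt τ' τ h (by omega); omega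
    have h6 : (F.image v).card = F.card := card_image_of_injOn hinj
    have h7 := budS (el r i z) y (F.image v) (by
      intro w hw
      rw [mem_image] at hw
      obtain ⟨τ, hτ, rfl⟩ := hw
      rw [hF, mem_filter, mem_range] at hτ
      refine ⟨T' τ, ?_⟩
      rw [← hτ.2]
      exact hS τ (by omega))
    omega

/-- bound on the pointer -/
theorem ptr_le
    (budA : ∀ m (X : Finset ℕ), (∀ x ∈ X, ∃ t, A t x m = true) → X.card < 2 ^ (m + 1))
    (hg : 2 + N * 2 ^ (e + 2) ≤ 2 ^ g) (hD : D = 2 ^ (N * g) + 3) (t : ℕ) :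
    (hd A B S N g D e t).2.2.2 + 2 ^ (hd A B S N g D e t).2.1 ≤ 2 ^ D ∧
      (hd A B S N g D e t).2.1 ≤ D := by
  have h1 := (inv (A := A) (B := B) (S := S) (N := N) (g := g) (D := D) (e := e) t).1
  have h2 := block_lt (D := D) (B := B) (S := S) budA hg t
  set h := hd A B S N g D e t
  have h3 : h.2.1 + 3 ≤ D := by omega
  refine ⟨?_, by omega⟩
  obtain ⟨D', rfl⟩ : ∃ D', D = D' + 3 := ⟨2 ^ (N * g), hD⟩
  have h4 : 2 ^ h.2.1 ≤ 2 ^ D' := Nat.pow_le_pow_right (by norm_num) (by omega)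
  rw [show D' + 3 - 1 = D' + 2 by omega] at h1
  rw [pow_succ 2 h.2.1] at h1
  rw [show 2 ^ (D' + 2) = 4 * 2 ^ D' by ring] at h1
  rw [show 2 ^ (D' + 3) = 8 * 2 ^ D' by ring]
  omega

theorem stop_false {b s : ℕ}
    (monoA : ∀ t x m m', m ≤ m' → A t x m = true → A t x m' = true)
    (budA : ∀ m (X : Finset ℕ), (∀ x ∈ X, ∃ t, A t x m = true) → X.card < 2 ^ (m + 1))
    (kraftB : ∀ (X : Finset ℕ) (κ : ℕ → ℕ) (T : ℕ),
      (∀ x ∈ X, (∃ t, B t x (κ x) = true) ∧ κ x ≤ T) → ∑ x ∈ X, 2 ^ (T - κ x) ≤ 2 ^ T)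
    (budS : ∀ x κ (V : Finset ℕ), (∀ v ∈ V, ∃ t, S t x κ v = true) → V.card ≤ b)
    (hNbs : N = b * s) (hN : 0 < N) (hs : s = e + 4)
    (hg : 2 + N * 2 ^ (e + 2) ≤ 2 ^ g) (hD : D = 2 ^ (N * g) + 3) (t : ℕ)
    (h1 : stabB A B S N g D e t (hd A B S N g D e t).1 (hd A B S N g D e t).2.1
      (hd A B S N g D e t).2.2.1) (h2 : (hd A B S N g D e t).2.2.1 = N)
    (h3 : 2 ^ (D - 1) ≤ (hd A B S N g D e t).2.2.2 + 2 ^ (hd A B S N g D e t).2.1) : False := by
  classical
  obtain ⟨i1, i2, i3, i4, ⟨ι, i5, i6⟩, i7⟩ :=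
    inv (A := A) (B := B) (S := S) (N := N) (g := g) (D := D) (e := e) t
  set R := (hd A B S N g D e t).1 with hR
  set i0 := (hd A B S N g D e t).2.1 with hi0
  set p := (hd A B S N g D e t).2.2.2 with hp
  rw [h2] at h1 i4
  have hwon : Won A B S N g D e R i0 := ⟨i4, t, h1⟩
  set ι' : ℕ → ℕ := fun r => if r = R then i0 else ι r with hι'
  have hW : ∀ r < R + 1, Won A B S N g D e r (ι' r) ∧ ι' r ≤ D := by
    intro r hr
    by_cases hrR : r = R
    · subst hrR
      simp only [hι', if_true]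
      exact ⟨hwon, (ptr_le budA hg hD t).2⟩
    · simp only [hι', hrR, if_false]
      obtain ⟨ha, t', hb⟩ := i5 r (by omega)
      exact ⟨ha, by rw [← hb]; exact (ptr_le budA hg hD t').2⟩
  have hsum : p + 2 + 2 ^ i0 ≤ 3 * ∑ r ∈ range (R + 1), 2 ^ (ι' r) := by
    rw [sum_range_succ]
    have : ∑ x ∈ range R, 2 ^ (ι' x) = ∑ x ∈ range R, 2 ^ (ι x) := by
      apply sum_congr rfl
      intro x hx
      simp only [hι']
      rw [if_neg (by have := mem_range.1 hx; omega)]
    rw [this]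
    simp only [hι', if_true]
    rw [pow_succ] at i6
    omega
  have hex : ∀ r < R + 1, ∃ Z : Finset ℕ, 2 ^ nn N g r < 2 * Z.card ∧
      ∀ z ∈ Z, ∃ κ, κ + s ≤ kv N g D e r (ι' r) ∧ ∃ t, B t (el r (ι' r) z) κ = true := by
    intro r hr
    obtain ⟨Z, _, hZ1, hZ2⟩ := won_surv monoA budS hNbs hN (hW r hr).1
    exact ⟨Z, hZ1, hZ2⟩
  choose! Z hZ1 hZ2 using hex
  choose! κ hκ1 hκ2 using hZ2
  -- the set of all survivors
  set X : Finset ℕ := ((range (R + 1)).sigma Z).image (fun q => el q.1 (ι' q.1) q.2) with hX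
  set T := D + ∑ r ∈ range (R + 1), kv N g D e r (ι' r) with hT
  have hinj : ∀ q q' : (Σ _ : ℕ, ℕ), el q.1 (ι' q.1) q.2 = el q'.1 (ι' q'.1) q'.2 → q = q' := by
    rintro ⟨r, z⟩ ⟨r', z'⟩ h
    have := el_inj h
    simp only at this
    obtain ⟨rfl, _, rfl⟩ := this
    rfl
  -- recover the function `κ` on elements
  have hK : ∀ x ∈ X, ∃ k, (∃ t, B t x k = true) ∧ ∀ r z, r < R + 1 → z ∈ Z r →
      x = el r (ι' r) z → k = κ r z := by
    intro x hx
    rw [hX, mem_image] at hx
    obtain ⟨⟨r, z⟩, hq, rfl⟩ := hx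
    rw [mem_sigma, mem_range] at hq
    refine ⟨κ r z, hκ2 r hq.1 z hq.2, ?_⟩
    intro r' z' _ _ h
    have := hinj ⟨r, z⟩ ⟨r', z'⟩ h
    simp only [Sigma.mk.injEq, heq_eq_eq] at this
    obtain ⟨rfl, rfl⟩ := this
    rfl
  choose! K hK1 hK2 using hK
  have hKe : ∀ r < R + 1, ∀ z ∈ Z r, K (el r (ι' r) z) = κ r z := by
    intro r hr z hz
    exact hK2 _ (by rw [hX, mem_image]; exact ⟨⟨r, z⟩, by rw [mem_sigma, mem_range]; exact ⟨hr, hz⟩,
      rfl⟩) r z hr hz rfl
  have hkT : ∀ r < R + 1, kv N g D e r (ι' r) ≤ T := by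
    intro r hr
    rw [hT]
    have := single_le_sum (f := fun r => kv N g D e r (ι' r)) (fun _ _ => Nat.zero_le _)
      (mem_range.2 hr)
    omega
  have hkr := kraftB X K T (by
    intro x hx
    refine ⟨hK1 x hx, ?_⟩
    rw [hX, mem_image] at hx
    obtain ⟨⟨r, z⟩, hq, rfl⟩ := hx
    rw [mem_sigma, mem_range] at hq
    simp only
    rw [hKe r hq.1 z hq.2]
    have := hκ1 r hq.1 z hq.2
    have := hkT r hq.1
    omega)
  have hlow : ∀ r < R + 1, 2 ^ (T - D) * (16 * 2 ^ (ι' r)) ≤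
      2 * ∑ z ∈ Z r, 2 ^ (T - K (el r (ι' r) z)) := by
    intro r hr
    have hc := hZ1 r hr
    have hW2 := (hW r hr).2
    have hne : (Z r).Nonempty := by
      rw [← card_pos]
      have : 0 < 2 ^ nn N g r := by positivity
      omega
    obtain ⟨z0, hz0⟩ := hne
    have hks : s ≤ kv N g D e r (ι' r) := by have := hκ1 r hr z0 hz0; omega
    have hkT' := hkT r hr
    have h5 : ∀ z ∈ Z r, 2 ^ (T + s - kv N g D e r (ι' r)) ≤ 2 ^ (T - K (el r (ι' r) z)) := by
      intro z hz
      apply Nat.pow_le_pow_right (by norm_num)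
      rw [hKe r hr z hz]
      have := hκ1 r hr z hz
      omega
    have h6 : (Z r).card * 2 ^ (T + s - kv N g D e r (ι' r)) ≤
        ∑ z ∈ Z r, 2 ^ (T - K (el r (ι' r) z)) := by
      rw [← smul_eq_mul, ← sum_const]
      exact sum_le_sum h5
    have h7 : 2 ^ (T - D) * (16 * 2 ^ (ι' r)) =
        2 ^ nn N g r * 2 ^ (T + s - kv N g D e r (ι' r)) := by
      rw [show (16 : ℕ) = 2 ^ 4 by norm_num, ← pow_add, ← pow_add, ← pow_add]
      congr 1
      have hTD : D ≤ T := by rw [hT]; omega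
      unfold kv at hkT' ⊢
      omega
    rw [h7]
    calc 2 ^ nn N g r * 2 ^ (T + s - kv N g D e r (ι' r))
        ≤ (2 * (Z r).card) * 2 ^ (T + s - kv N g D e r (ι' r)) :=
          Nat.mul_le_mul_right _ hc.le
      _ = 2 * ((Z r).card * 2 ^ (T + s - kv N g D e r (ι' r))) := by ring
      _ ≤ _ := Nat.mul_le_mul_left _ h6
  have htot : 2 ^ (T - D) * (16 * ∑ r ∈ range (R + 1), 2 ^ (ι' r)) ≤ 2 * 2 ^ T := by
    calc 2 ^ (T - D) * (16 * ∑ r ∈ range (R + 1), 2 ^ (ι' r))
        = ∑ r ∈ range (R + 1), 2 ^ (T - D) * (16 * 2 ^ (ι' r)) := by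
          rw [mul_sum, mul_sum]
      _ ≤ ∑ r ∈ range (R + 1), 2 * ∑ z ∈ Z r, 2 ^ (T - K (el r (ι' r) z)) :=
          sum_le_sum (fun r hr => hlow r (mem_range.1 hr))
      _ = 2 * ∑ x ∈ X, 2 ^ (T - K x) := by
          rw [hX, sum_image (fun q _ q' _ h => hinj q q' h), sum_sigma, mul_sum]
      _ ≤ 2 * 2 ^ T := Nat.mul_le_mul_left _ hkr
  have hTD : 2 ^ T = 2 ^ (T - D) * 2 ^ D := by
    have hDT : D ≤ T := by rw [hT]; exact Nat.le_add_right _ _
    rw [← pow_add, Nat.sub_add_cancel hDT]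
  rw [hTD] at htot
  have h8 : 16 * ∑ r ∈ range (R + 1), 2 ^ (ι' r) ≤ 2 * 2 ^ D := by
    have : 2 ^ (T - D) * (16 * ∑ r ∈ range (R + 1), 2 ^ (ι' r)) ≤ 2 ^ (T - D) * (2 * 2 ^ D) := by
      calc _ ≤ _ := htot
        _ = _ := by ring
    exact Nat.le_of_mul_le_mul_left this (by positivity)
  have h9 : 2 ^ D = 2 * 2 ^ (D - 1) := by
    have h10 : 0 < 2 ^ (N * g) := by positivity
    have h11 : D - 1 + 1 = D := by omega
    rw [← pow_succ', h11]
  rw [h9] at h8
  omega

/-- The game cannot be played for ever. -/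
theorem game_false {b s : ℕ}
    (monoA : ∀ t x m m', m ≤ m' → A t x m = true → A t x m' = true)
    (budA : ∀ m (X : Finset ℕ), (∀ x ∈ X, ∃ t, A t x m = true) → X.card < 2 ^ (m + 1))
    (kraftB : ∀ (X : Finset ℕ) (κ : ℕ → ℕ) (T : ℕ),
      (∀ x ∈ X, (∃ t, B t x (κ x) = true) ∧ κ x ≤ T) → ∑ x ∈ X, 2 ^ (T - κ x) ≤ 2 ^ T)
    (budS : ∀ x κ (V : Finset ℕ), (∀ v ∈ V, ∃ t, S t x κ v = true) → V.card ≤ b)
    (hNbs : N = b * s) (hN : 0 < N) (hs : s = e + 4)
    (hg : 2 + N * 2 ^ (e + 2) ≤ 2 ^ g) (hD : D = 2 ^ (N * g) + 3)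
    (hprog : ∀ t, ∃ t0, ∀ t' ≥ t0, stabB A B S N g D e t' (hd A B S N g D e t).1
      (hd A B S N g D e t).2.1 (hd A B S N g D e t).2.2.1) : False := by
  set I := 2 ^ (N * g) with hI
  set μ : ℕ × ℕ × ℕ × ℕ → ℕ := fun h => (h.1 * I + h.2.1) * (N + 1) + h.2.2.1 with hμ
  -- every change increases the measure
  have hinc : ∀ t, hd A B S N g D e (t + 1) = hd A B S N g D e t ∨
      μ (hd A B S N g D e t) < μ (hd A B S N g D e (t + 1)) := by
    intro t
    have hI1 := block_lt (D := D) (B := B) (S := S) budA hg t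
    have h3 := (inv (A := A) (B := B) (S := S) (N := N) (g := g) (D := D) (e := e) t).2.2.1
    rw [hd_succ]
    rcases step_cases (A := A) (B := B) (S := S) (N := N) (g := g) (D := D) (e := e) t
      (hd A B S N g D e t) with h | ⟨_, _, _, h⟩ | ⟨_, _, _, h⟩ | ⟨_, _, _, h⟩
    · left; exact h
    · right
      rw [h]
      simp only [hμ]
      rw [← add_assoc, add_mul _ 1]
      omega
    · right
      rw [h]
      simp only [hμ]
      omega
    · right
      rw [h]
      simp only [hμ]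
      have h5 : ((hd A B S N g D e t).1 * I + (hd A B S N g D e t).2.1 + 1) * (N + 1) ≤
          (((hd A B S N g D e t).1 + 1) * I + 0) * (N + 1) := by
        apply Nat.mul_le_mul_right
        rw [add_mul]
        omega
      rw [add_mul _ 1] at h5
      omega
  -- the measure is bounded
  have hbd : ∀ t, μ (hd A B S N g D e t) ≤ (2 ^ D * I + I) * (N + 1) + N := by
    intro t
    have hI1 := block_lt (D := D) (B := B) (S := S) budA hg t
    obtain ⟨_, h2, h3, _⟩ :=
      inv (A := A) (B := B) (S := S) (N := N) (g := g) (D := D) (e := e) t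
    have h4 := (ptr_le (D := D) (B := B) (S := S) budA hg hD t).1
    simp only [hμ]
    have h5 : (hd A B S N g D e t).1 * I + (hd A B S N g D e t).2.1 ≤ 2 ^ D * I + I := by
      have h0 : 0 ≤ 2 ^ (hd A B S N g D e t).2.1 := Nat.zero_le _
      have : (hd A B S N g D e t).1 * I ≤ 2 ^ D * I := Nat.mul_le_mul_right _ (by omega)
      omega
    have h6 := Nat.mul_le_mul_right (N + 1) h5
    omega
  -- progress
  have hpr : ∀ t, ∃ t', μ (hd A B S N g D e t) < μ (hd A B S N g D e t') := by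
    intro t
    by_contra hcon
    push Not at hcon
    have hconst : ∀ t', t ≤ t' → hd A B S N g D e t' = hd A B S N g D e t := by
      intro t' ht'
      induction t', ht' using Nat.le_induction with
      | base => rfl
      | succ n hn ih =>
        rcases hinc n with h | h
        · rw [h, ih]
        · rw [ih] at h
          have := hcon (n + 1)
          omega
    obtain ⟨t0, ht0⟩ := hprog t
    set t1 := max t t0 with ht1
    have e1 := hconst t1 (le_max_left _ _)
    have e2 := hconst (t1 + 1) ((le_max_left _ _).trans (Nat.le_succ _))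
    have hst := ht0 t1 (le_max_right _ _)
    rw [← e1] at hst
    rw [← e1, hd_succ] at e2
    have h3 := (inv (A := A) (B := B) (S := S) (N := N) (g := g) (D := D) (e := e) t1).2.2.1
    unfold step at e2
    rw [if_pos hst] at e2
    by_cases hτ : (hd A B S N g D e t1).2.2.1 < N
    · rw [if_pos hτ] at e2
      split_ifs at e2 with hb
      · have := congrArg (fun h => h.2.1) e2
        simp at this
      · have := congrArg (fun h => h.2.2.1) e2
        simp at this
    · rw [if_neg hτ] at e2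
      split_ifs at e2 with hb
      · have := congrArg (fun h => h.1) e2
        simp at this
      · exact stop_false monoA budA kraftB budS hNbs hN hs hg hD t1 hst (by omega) (by omega)
  have hall : ∀ k, ∃ t, k ≤ μ (hd A B S N g D e t) := by
    intro k
    induction k with
    | zero => exact ⟨0, Nat.zero_le _⟩
    | succ k ih =>
      obtain ⟨t, ht⟩ := ih
      obtain ⟨t', ht'⟩ := hpr t
      exact ⟨t', by omega⟩
  obtain ⟨t, ht⟩ := hall ((2 ^ D * I + I) * (N + 1) + N + 1)
  have := hbd t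
  omega

end facts

end Pool.Agent.KCN
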