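import Pool.Agent.KCN.Bits

/-!
The two machines built from the strategy.
-/

namespace Pool.Agent.KCN

/-- number of leading ones -/
def lead (q : List Bool) : ℕ := (q.takeWhile id).length

theorem lead_eq (j : ℕ) (w : List Bool) : lead (List.replicate j true ++ false :: w) = j := by
  unfold lead
  induction j with
  | zero => simp
  | succ j ih => simpa [List.replicate_succ] using ih

theorem drop_eq (j : ℕ) (w : List Bool) :
    (List.replicate j true ++ false :: w).drop (j + 1) = w := by
  induction j with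
  | zero => simp
  | succ j ih => simpa [List.replicate_succ] using ih

theorem parse {q : List Bool} (h : lead q < q.length) :
    q = List.replicate (lead q) true ++ false :: q.drop (lead q + 1) := by
  unfold lead at *
  induction q with
  | nil => simp at h
  | cons b q ih =>
    cases b
    · simp
    · simp only [List.takeWhile_cons, id, if_true, List.length_cons] at h ⊢
      rw [List.replicate_succ, List.drop_succ_cons, List.cons_append, ← ih (by simpa using h)]

theorem lead_pr : Primrec lead :=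
  Primrec.list_length.comp (Primrec.list_takeWhile Primrec.id)

section conds

variable (A B : ℕ → ℕ → ℕ → Bool) (S : ℕ → ℕ → ℕ → ℕ → Bool) (N g D e : ℕ)

/-- `w` is the plain description used at time `t` -/
def condM (t : ℕ) (w : List Bool) : Prop :=
  w.length = nn N g (hd A B S N g D e t).1 + (N - (hd A B S N g D e t).2.2.1) * g ∧
    val w / 2 ^ nn N g (hd A B S N g D e t).1 = rank A B S N g D e t (hd A B S N g D e t)

/-- `w` is the prefix-free description used at time `t` -/
def condP (t : ℕ) (w : List Bool) : Prop :=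
  (hd A B S N g D e t).2.1 ≤ D ∧
  w.length = nn N g (hd A B S N g D e t).1 + (D - (hd A B S N g D e t).2.1) ∧
    val w / 2 ^ nn N g (hd A B S N g D e t).1 =
      (hd A B S N g D e t).2.2.2 / 2 ^ (hd A B S N g D e t).2.1

/-- the described element -/
noncomputable def outp (t : ℕ) (w : List Bool) : ℕ :=
  el (hd A B S N g D e t).1 (hd A B S N g D e t).2.1 (val w % 2 ^ nn N g (hd A B S N g D e t).1)

end conds

section

variable {A B : ℕ → ℕ → ℕ → Bool} {S : ℕ → ℕ → ℕ → ℕ → Bool} {N g D e : ℕ}

theorem condM_unique (hg : 0 < g) {t t' : ℕ} {w : List Bool} (h : condM A B S N g D e t w)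
    (h' : condM A B S N g D e t' w) : outp A B S N g D e t w = outp A B S N g D e t' w := by
  have i1 := (inv (A := A) (B := B) (S := S) (N := N) (g := g) (D := D) (e := e) t).2.2.1
  have i2 := (inv (A := A) (B := B) (S := S) (N := N) (g := g) (D := D) (e := e) t').2.2.1
  obtain ⟨h1, h2⟩ := h
  obtain ⟨h1', h2'⟩ := h'
  unfold outp
  have e1 : ∀ h : ℕ × ℕ × ℕ × ℕ, nn N g h.1 + (N - h.2.2.1) * g =
      ((N + 1) * h.1 + (N - h.2.2.1)) * g := by
    intro h; unfold nn; ring
  have h3 : ((N + 1) * (hd A B S N g D e t).1 + (N - (hd A B S N g D e t).2.2.1)) =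
      ((N + 1) * (hd A B S N g D e t').1 + (N - (hd A B S N g D e t').2.2.1)) := by
    rw [h1, e1, e1] at h1'
    exact Nat.eq_of_mul_eq_mul_right hg h1'
  have hr : (hd A B S N g D e t).1 = (hd A B S N g D e t').1 := by
    have := congrArg (fun x => x / (N + 1)) h3
    rw [Nat.mul_add_div (by omega), Nat.mul_add_div (by omega),
      Nat.div_eq_of_lt (by omega), Nat.div_eq_of_lt (by omega)] at this
    omega
  have hτ : (hd A B S N g D e t).2.2.1 = (hd A B S N g D e t').2.2.1 := by
    rw [hr] at h3; omega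
  have hi := rank_inj hr hτ (by rw [← h2, ← h2', hr])
  rw [hr, hi]

/-- position of the dyadic interval of `w` inside the interval of its block -/
theorem interval {n i p T : ℕ} {w : List Bool} (hi : i ≤ D) (hl : w.length = n + (D - i))
    (hp : 2 ^ i ∣ p) (hv : val w / 2 ^ n = p / 2 ^ i) (hT : D ≤ T) (hT' : w.length ≤ T) :
    p * 2 ^ (T - D) ≤ val w * 2 ^ (T - w.length) ∧
      (val w + 1) * 2 ^ (T - w.length) ≤ (p + 2 ^ i) * 2 ^ (T - D) := by
  obtain ⟨m, rfl⟩ := hp
  rw [Nat.mul_div_cancel_left _ (by positivity)] at hv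
  have h1 : 2 ^ n * 2 ^ (T - w.length) = 2 ^ i * 2 ^ (T - D) := by
    rw [← pow_add, ← pow_add]; congr 1; omega
  have h2 : m * 2 ^ n ≤ val w := by
    rw [← hv]; exact Nat.div_mul_le_self _ _
  have h3 : val w + 1 ≤ (m + 1) * 2 ^ n := by
    rw [← hv]
    have := Nat.lt_div_mul_add (a := val w) (b := 2 ^ n) (by positivity)
    rw [add_mul]; omega
  constructor
  · calc 2 ^ i * m * 2 ^ (T - D) = m * (2 ^ i * 2 ^ (T - D)) := by ring
      _ = m * 2 ^ n * 2 ^ (T - w.length) := by rw [← h1]; ring
      _ ≤ val w * 2 ^ (T - w.length) := Nat.mul_le_mul_right _ h2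
  · calc (val w + 1) * 2 ^ (T - w.length) ≤ (m + 1) * 2 ^ n * 2 ^ (T - w.length) :=
          Nat.mul_le_mul_right _ h3
      _ = (m + 1) * (2 ^ i * 2 ^ (T - D)) := by rw [← h1]; ring
      _ = (2 ^ i * m + 2 ^ i) * 2 ^ (T - D) := by ring

theorem condP_unique {t t' : ℕ} {w w' : List Bool} (h : condP A B S N g D e t w)
    (h' : condP A B S N g D e t' w') (hww : w <+: w') :
    w = w' ∧ outp A B S N g D e t w = outp A B S N g D e t' w' := by
  have a1 := aligned (A := A) (B := B) (S := S) (N := N) (g := g) (D := D) (e := e) t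
  have a2 := aligned (A := A) (B := B) (S := S) (N := N) (g := g) (D := D) (e := e) t'
  obtain ⟨h1, h2, h3⟩ := h
  obtain ⟨h1', h2', h3'⟩ := h'
  obtain ⟨u, rfl⟩ := hww
  set T := D + (w ++ u).length with hT
  have hle : w.length ≤ (w ++ u).length := by rw [List.length_append]; omega
  obtain ⟨j1, j2⟩ := interval (T := T) h1 h2 a1 h3 (by omega) (by omega)
  obtain ⟨j1', j2'⟩ := interval (T := T) h1' h2' a2 h3' (by omega) (by omega)
  have hTw : T - w.length = u.length + (T - (w ++ u).length) := by
    rw [hT, List.length_append]; omega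
  have k1 : val w * 2 ^ (T - w.length) ≤ val (w ++ u) * 2 ^ (T - (w ++ u).length) := by
    rw [hTw, pow_add, val_append]
    calc val w * (2 ^ u.length * 2 ^ (T - (w ++ u).length)) =
        (val w * 2 ^ u.length) * 2 ^ (T - (w ++ u).length) := by ring
      _ ≤ _ := Nat.mul_le_mul_right _ (Nat.le_add_right _ _)
  have k2 : (val (w ++ u) + 1) * 2 ^ (T - (w ++ u).length) ≤
      (val w + 1) * 2 ^ (T - w.length) := by
    rw [hTw, pow_add, val_append]
    calc (val w * 2 ^ u.length + val u + 1) * 2 ^ (T - (w ++ u).length)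
        ≤ ((val w + 1) * 2 ^ u.length) * 2 ^ (T - (w ++ u).length) := by
          apply Nat.mul_le_mul_right
          have := val_lt u
          rw [add_mul]; omega
      _ = _ := by ring
  have hpos : 0 < 2 ^ (T - (w ++ u).length) := by positivity
  have hlt : val (w ++ u) * 2 ^ (T - (w ++ u).length) <
      (val (w ++ u) + 1) * 2 ^ (T - (w ++ u).length) := by
    rw [add_mul]; omega
  have hsame : (hd A B S N g D e t).1 = (hd A B S N g D e t').1 ∧
      (hd A B S N g D e t).2.1 = (hd A B S N g D e t').2.1 := by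
    rcases Nat.le_total t t' with htt | htt
    · rcases rel_le (A := A) (B := B) (S := S) (N := N) (g := g) (D := D) (e := e) htt with
        ⟨c1, c2, _⟩ | ⟨_, c⟩
      · exact ⟨c1, c2⟩
      · exfalso
        have := Nat.mul_le_mul_right (2 ^ (T - D)) c
        omega
    · rcases rel_le (A := A) (B := B) (S := S) (N := N) (g := g) (D := D) (e := e) htt with
        ⟨c1, c2, _⟩ | ⟨_, c⟩
      · exact ⟨c1.symm, c2.symm⟩
      · exfalso
        have := Nat.mul_le_mul_right (2 ^ (T - D)) c
        omega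
  obtain ⟨c1, c2⟩ := hsame
  have hlen : w.length = (w ++ u).length := by rw [h2, h2', c1, c2]
  have hu : u = [] := by
    rw [List.length_append] at hlen
    exact List.length_eq_zero_iff.1 (by omega)
  subst hu
  rw [List.append_nil]
  refine ⟨rfl, ?_⟩
  unfold outp
  rw [c1, c2]

theorem exists_condM {t z : ℕ} (hz : z < 2 ^ nn N g (hd A B S N g D e t).1)
    (hr : rank A B S N g D e t (hd A B S N g D e t) <
      2 ^ ((N - (hd A B S N g D e t).2.2.1) * g)) :
    ∃ w : List Bool, condM A B S N g D e t w ∧ outp A B S N g D e t w =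
      el (hd A B S N g D e t).1 (hd A B S N g D e t).2.1 z := by
  obtain ⟨w, h1, h2⟩ := exists_val
    (nn N g (hd A B S N g D e t).1 + (N - (hd A B S N g D e t).2.2.1) * g)
    (rank A B S N g D e t (hd A B S N g D e t) * 2 ^ nn N g (hd A B S N g D e t).1 + z) (by
      rw [pow_add]
      calc _ < rank A B S N g D e t (hd A B S N g D e t) * 2 ^ nn N g (hd A B S N g D e t).1 +
            2 ^ nn N g (hd A B S N g D e t).1 := by omega
        _ = 2 ^ nn N g (hd A B S N g D e t).1 *
            (rank A B S N g D e t (hd A B S N g D e t) + 1) := by ring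
        _ ≤ _ := Nat.mul_le_mul_left _ hr)
  refine ⟨w, ⟨h1, ?_⟩, ?_⟩
  · rw [h2, mul_comm, Nat.mul_add_div (by positivity), Nat.div_eq_of_lt hz, add_zero]
  · unfold outp
    rw [h2, mul_comm, Nat.mul_add_mod, Nat.mod_eq_of_lt hz]

theorem exists_condP {t z : ℕ} (hz : z < 2 ^ nn N g (hd A B S N g D e t).1)
    (hp : (hd A B S N g D e t).2.2.2 + 2 ^ (hd A B S N g D e t).2.1 ≤ 2 ^ D)
    (hi : (hd A B S N g D e t).2.1 ≤ D) :
    ∃ w : List Bool, condP A B S N g D e t w ∧ outp A B S N g D e t w =
      el (hd A B S N g D e t).1 (hd A B S N g D e t).2.1 z := by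
  have a1 := aligned (A := A) (B := B) (S := S) (N := N) (g := g) (D := D) (e := e) t
  have hlt : (hd A B S N g D e t).2.2.2 / 2 ^ (hd A B S N g D e t).2.1 + 1 ≤
      2 ^ (D - (hd A B S N g D e t).2.1) := by
    obtain ⟨m, hm⟩ := a1
    rw [hm] at hp ⊢
    rw [Nat.mul_div_cancel_left _ (by positivity)]
    have h1 : 2 ^ D = 2 ^ (hd A B S N g D e t).2.1 * 2 ^ (D - (hd A B S N g D e t).2.1) := by
      rw [← pow_add]; congr 1; omega
    rw [h1] at hp
    have : 2 ^ (hd A B S N g D e t).2.1 * (m + 1) ≤
        2 ^ (hd A B S N g D e t).2.1 * 2 ^ (D - (hd A B S N g D e t).2.1) := by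
      rw [mul_add, mul_one]; exact hp
    exact Nat.le_of_mul_le_mul_left this (by positivity)
  obtain ⟨w, h1, h2⟩ := exists_val
    (nn N g (hd A B S N g D e t).1 + (D - (hd A B S N g D e t).2.1))
    ((hd A B S N g D e t).2.2.2 / 2 ^ (hd A B S N g D e t).2.1 *
      2 ^ nn N g (hd A B S N g D e t).1 + z) (by
      rw [pow_add]
      calc _ < (hd A B S N g D e t).2.2.2 / 2 ^ (hd A B S N g D e t).2.1 *
            2 ^ nn N g (hd A B S N g D e t).1 +
            2 ^ nn N g (hd A B S N g D e t).1 := by omega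
        _ = 2 ^ nn N g (hd A B S N g D e t).1 *
            ((hd A B S N g D e t).2.2.2 / 2 ^ (hd A B S N g D e t).2.1 + 1) := by ring
        _ ≤ _ := Nat.mul_le_mul_left _ hlt)
  refine ⟨w, ⟨hi, h1, ?_⟩, ?_⟩
  · rw [h2, mul_comm, Nat.mul_add_div (by positivity), Nat.div_eq_of_lt hz, add_zero]
  · unfold outp
    rw [h2, mul_comm, Nat.mul_add_mod, Nat.mod_eq_of_lt hz]

end

end Pool.Agent.KCN
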