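import Pool.Agent.KCN.Defs

/-!
The main theorem: unboundedness of `K(C(n) | n, K(n))`.
-/

namespace Pool.Agent.KCN

/-- parameters of the strategy -/
def pE (j : ℕ) : ℕ := 2 ^ j
/-- parameters of the strategy -/
def pN (b j : ℕ) : ℕ := b * (2 ^ j + 4)
/-- parameters of the strategy -/
def pG (b j : ℕ) : ℕ := pN b j + 2 ^ j + 3
/-- parameters of the strategy -/
def pD (b j : ℕ) : ℕ := 2 ^ (pN b j * pG b j) + 3

theorem pG_spec (b j : ℕ) : 2 + pN b j * 2 ^ (pE j + 2) ≤ 2 ^ pG b j := by
  have h1 : pN b j + 1 ≤ 2 ^ pN b j := Nat.lt_two_pow_self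
  have h2 : 2 ≤ 2 ^ (pE j + 2) := by
    rw [pow_succ]; have := Nat.one_le_two_pow (n := pE j + 1); omega
  calc 2 + pN b j * 2 ^ (pE j + 2) ≤ (pN b j + 1) * 2 ^ (pE j + 2) := by rw [add_mul]; omega
    _ ≤ 2 ^ pN b j * 2 ^ (pE j + 2) := Nat.mul_le_mul_right _ h1
    _ = 2 ^ (pN b j + (pE j + 2)) := (pow_add _ _ _).symm
    _ ≤ 2 ^ pG b j := Nat.pow_le_pow_right (by norm_num) (by unfold pG pE; omega)

section pr
variable {α : Type*} [Primcodable α]

theorem pE_pr {j : α → ℕ} (hj : Primrec j) : Primrec fun a => pE (j a) :=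
  pow_pr (Primrec.const 2) hj

theorem pN_pr (b : ℕ) {j : α → ℕ} (hj : Primrec j) : Primrec fun a => pN b (j a) :=
  mul_pr (Primrec.const b) (add_pr (pE_pr hj) (Primrec.const 4))

theorem pG_pr (b : ℕ) {j : α → ℕ} (hj : Primrec j) : Primrec fun a => pG b (j a) :=
  add_pr (add_pr (pN_pr b hj) (pE_pr hj)) (Primrec.const 3)

theorem pD_pr (b : ℕ) {j : α → ℕ} (hj : Primrec j) : Primrec fun a => pD b (j a) :=
  add_pr (pow_pr (Primrec.const 2) (mul_pr (pN_pr b hj) (pG_pr b hj))) (Primrec.const 3)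

end pr

section machines

variable (A B : ℕ → ℕ → ℕ → Bool) (S : ℕ → ℕ → ℕ → ℕ → Bool) (b : ℕ)

open Classical in
/-- stages of the plain machine -/
noncomputable def Mf (q : List Bool) (t : ℕ) : Option ℕ :=
  if lead q < q.length ∧ condM A B S (pN b (lead q)) (pG b (lead q)) (pD b (lead q))
      (pE (lead q)) t (q.drop (lead q + 1)) then
    some (outp A B S (pN b (lead q)) (pG b (lead q)) (pD b (lead q)) (pE (lead q)) t
      (q.drop (lead q + 1)))
  else none

open Classical in
/-- stages of the prefix-free machine -/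
noncomputable def Pf (q : List Bool) (t : ℕ) : Option ℕ :=
  if lead q < q.length ∧ condP A B S (pN b (lead q)) (pG b (lead q)) (pD b (lead q))
      (pE (lead q)) t (q.drop (lead q + 1)) then
    some (outp A B S (pN b (lead q)) (pG b (lead q)) (pD b (lead q)) (pE (lead q)) t
      (q.drop (lead q + 1)))
  else none

/-- the machine with stages `F` -/
def mach (F : List Bool → ℕ → Option ℕ) : List Bool →. List Bool :=
  fun q => (Nat.rfindOpt (F q)).map str

end machines

theorem mach_partrec {F : List Bool → ℕ → Option ℕ} (hF : Primrec₂ F) : Partrec (mach F) :=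
  (Partrec.rfindOpt hF.to_comp).map (str_comp.comp Computable.snd).to₂

theorem mem_mach {F : List Bool → ℕ → Option ℕ} {q : List Bool} {t y : ℕ}
    (h : F q t = some y) (huniq : ∀ t' y', F q t' = some y' → y' = y) : str y ∈ mach F q := by
  unfold mach
  rw [Part.mem_map_iff]
  have hdom : (Nat.rfindOpt (F q)).Dom := by
    rw [Nat.rfindOpt_dom]; exact ⟨t, y, h⟩
  obtain ⟨y', hy'⟩ := Part.dom_iff_mem.1 hdom
  obtain ⟨t', ht'⟩ := Nat.rfindOpt_spec hy'
  have := huniq t' y' ht'
  rw [this] at hy'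
  exact ⟨y, hy', rfl⟩

theorem mach_dom {F : List Bool → ℕ → Option ℕ} {q : List Bool} (h : (mach F q).Dom) :
    ∃ t y, F q t = some y := by
  unfold mach at h
  rw [Part.map_Dom] at h
  rw [Nat.rfindOpt_dom] at h
  exact h

section machpr

variable {A B : ℕ → ℕ → ℕ → Bool} {S : ℕ → ℕ → ℕ → ℕ → Bool} {b : ℕ}

theorem outp_pr {α : Type*} [Primcodable α]
    (hA : Primrec fun a : ℕ × ℕ × ℕ => A a.1 a.2.1 a.2.2)
    (hB : Primrec fun a : ℕ × ℕ × ℕ => B a.1 a.2.1 a.2.2)
    (hS : Primrec fun a : ℕ × ℕ × ℕ × ℕ => S a.1 a.2.1 a.2.2.1 a.2.2.2)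
    {N g D e t : α → ℕ} {w : α → List Bool} (hN : Primrec N) (hg : Primrec g)
    (hD : Primrec D) (he : Primrec e) (ht : Primrec t) (hw : Primrec w) :
    Primrec fun a => outp A B S (N a) (g a) (D a) (e a) (t a) (w a) := by
  have H := hd_pr hA hB hS hN hg hD he ht
  unfold outp
  exact el_pr (Primrec.fst.comp H) (Primrec.fst.comp (Primrec.snd.comp H))
    (mod_pr (val_pr.comp hw) (pow_pr (Primrec.const 2) (nn_pr hN hg (Primrec.fst.comp H))))

theorem condM_pr {α : Type*} [Primcodable α]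
    (hA : Primrec fun a : ℕ × ℕ × ℕ => A a.1 a.2.1 a.2.2)
    (hB : Primrec fun a : ℕ × ℕ × ℕ => B a.1 a.2.1 a.2.2)
    (hS : Primrec fun a : ℕ × ℕ × ℕ × ℕ => S a.1 a.2.1 a.2.2.1 a.2.2.2)
    {N g D e t : α → ℕ} {w : α → List Bool} (hN : Primrec N) (hg : Primrec g)
    (hD : Primrec D) (he : Primrec e) (ht : Primrec t) (hw : Primrec w) :
    PrimrecPred fun a => condM A B S (N a) (g a) (D a) (e a) (t a) (w a) := by
  have H := hd_pr hA hB hS hN hg hD he ht
  have Hn := nn_pr hN hg (Primrec.fst.comp H)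
  unfold condM
  refine PrimrecPred.and (eq_pr (Primrec.list_length.comp hw) (add_pr Hn
    (mul_pr (sub_pr hN (Primrec.fst.comp (Primrec.snd.comp (Primrec.snd.comp H)))) hg))) ?_
  exact eq_pr (div_pr (val_pr.comp hw) (pow_pr (Primrec.const 2) Hn))
    (rank_pr hA hB hS hN hg hD he ht H)

theorem condP_pr {α : Type*} [Primcodable α]
    (hA : Primrec fun a : ℕ × ℕ × ℕ => A a.1 a.2.1 a.2.2)
    (hB : Primrec fun a : ℕ × ℕ × ℕ => B a.1 a.2.1 a.2.2)
    (hS : Primrec fun a : ℕ × ℕ × ℕ × ℕ => S a.1 a.2.1 a.2.2.1 a.2.2.2)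
    {N g D e t : α → ℕ} {w : α → List Bool} (hN : Primrec N) (hg : Primrec g)
    (hD : Primrec D) (he : Primrec e) (ht : Primrec t) (hw : Primrec w) :
    PrimrecPred fun a => condP A B S (N a) (g a) (D a) (e a) (t a) (w a) := by
  have H := hd_pr hA hB hS hN hg hD he ht
  have Hn := nn_pr hN hg (Primrec.fst.comp H)
  have Hi := Primrec.fst.comp (Primrec.snd.comp H)
  have Hp := Primrec.snd.comp (Primrec.snd.comp (Primrec.snd.comp H))
  unfold condP
  refine PrimrecPred.and (PrimrecRel.comp Primrec.nat_le Hi hD) ?_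
  refine PrimrecPred.and (eq_pr (Primrec.list_length.comp hw) (add_pr Hn (sub_pr hD Hi))) ?_
  exact eq_pr (div_pr (val_pr.comp hw) (pow_pr (Primrec.const 2) Hn))
    (div_pr Hp (pow_pr (Primrec.const 2) Hi))

theorem Mf_pr (hA : Primrec fun a : ℕ × ℕ × ℕ => A a.1 a.2.1 a.2.2)
    (hB : Primrec fun a : ℕ × ℕ × ℕ => B a.1 a.2.1 a.2.2)
    (hS : Primrec fun a : ℕ × ℕ × ℕ × ℕ => S a.1 a.2.1 a.2.2.1 a.2.2.2) :
    Primrec₂ (Mf A B S b) := by
  classical
  have hj : Primrec (fun p : List Bool × ℕ => lead p.1) := lead_pr.comp Primrec.fst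
  have hw : Primrec (fun p : List Bool × ℕ => p.1.drop (lead p.1 + 1)) :=
    Primrec.list_drop.comp (add_pr hj (Primrec.const 1)) Primrec.fst
  unfold Mf
  refine Primrec.ite ?_ ?_ (Primrec.const none)
  · refine PrimrecPred.and (PrimrecRel.comp Primrec.nat_lt hj
      (Primrec.list_length.comp Primrec.fst)) ?_
    exact condM_pr hA hB hS (pN_pr b hj) (pG_pr b hj) (pD_pr b hj) (pE_pr hj) Primrec.snd hw
  · exact Primrec.option_some.comp
      (outp_pr hA hB hS (pN_pr b hj) (pG_pr b hj) (pD_pr b hj) (pE_pr hj) Primrec.snd hw)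

theorem Pf_pr (hA : Primrec fun a : ℕ × ℕ × ℕ => A a.1 a.2.1 a.2.2)
    (hB : Primrec fun a : ℕ × ℕ × ℕ => B a.1 a.2.1 a.2.2)
    (hS : Primrec fun a : ℕ × ℕ × ℕ × ℕ => S a.1 a.2.1 a.2.2.1 a.2.2.2) :
    Primrec₂ (Pf A B S b) := by
  classical
  have hj : Primrec (fun p : List Bool × ℕ => lead p.1) := lead_pr.comp Primrec.fst
  have hw : Primrec (fun p : List Bool × ℕ => p.1.drop (lead p.1 + 1)) :=
    Primrec.list_drop.comp (add_pr hj (Primrec.const 1)) Primrec.fst
  unfold Pf
  refine Primrec.ite ?_ ?_ (Primrec.const none)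
  · refine PrimrecPred.and (PrimrecRel.comp Primrec.nat_lt hj
      (Primrec.list_length.comp Primrec.fst)) ?_
    exact condP_pr hA hB hS (pN_pr b hj) (pG_pr b hj) (pD_pr b hj) (pE_pr hj) Primrec.snd hw
  · exact Primrec.option_some.comp
      (outp_pr hA hB hS (pN_pr b hj) (pG_pr b hj) (pD_pr b hj) (pE_pr hj) Primrec.snd hw)

/-- the plain machine describes what it should -/
theorem Mf_spec {j t : ℕ} {w : List Bool}
    (h : condM A B S (pN b j) (pG b j) (pD b j) (pE j) t w) :
    str (outp A B S (pN b j) (pG b j) (pD b j) (pE j) t w) ∈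
      mach (Mf A B S b) (List.replicate j true ++ false :: w) := by
  have hl := lead_eq j w
  have hdr := drop_eq j w
  refine mem_mach (t := t) ?_ ?_
  · unfold Mf
    rw [hl, hdr, if_pos ⟨by simp, h⟩]
  · intro t' y' h'
    unfold Mf at h'
    rw [hl, hdr] at h'
    split_ifs at h' with h2
    rw [Option.some.injEq] at h'
    rw [← h']
    exact condM_unique (Nat.succ_pos _) h2.2 h

/-- the prefix-free machine describes what it should -/
theorem Pf_spec {j t : ℕ} {w : List Bool}
    (h : condP A B S (pN b j) (pG b j) (pD b j) (pE j) t w) :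
    str (outp A B S (pN b j) (pG b j) (pD b j) (pE j) t w) ∈
      mach (Pf A B S b) (List.replicate j true ++ false :: w) := by
  have hl := lead_eq j w
  have hdr := drop_eq j w
  refine mem_mach (t := t) ?_ ?_
  · unfold Pf
    rw [hl, hdr, if_pos ⟨by simp, h⟩]
  · intro t' y' h'
    unfold Pf at h'
    rw [hl, hdr] at h'
    split_ifs at h' with h2
    rw [Option.some.injEq] at h'
    rw [← h']
    exact (condP_unique h2.2 h List.prefix_rfl).2

theorem lead_of_prefix {p q : List Bool} (h : p <+: q) (hp : lead p < p.length) :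
    lead q = lead p := by
  obtain ⟨u, rfl⟩ := h
  have h1 := parse hp
  have h2 : p ++ u = List.replicate (lead p) true ++ false :: (p.drop (lead p + 1) ++ u) := by
    conv_lhs => rw [h1]
    simp
  rw [h2, lead_eq]

theorem Pf_prefixFree : PrefixFreeDom (mach (Pf A B S b)) := by
  intro p q hp hq hpq
  obtain ⟨t, y, ht⟩ := mach_dom hp
  obtain ⟨t', y', ht'⟩ := mach_dom hq
  unfold Pf at ht ht'
  split_ifs at ht with h1
  split_ifs at ht' with h2
  have hl := lead_of_prefix hpq h1.1
  have e1 := parse h1.1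
  have e2 := parse h2.1
  rw [hl] at h2 e2
  have h3 : p.drop (lead p + 1) <+: q.drop (lead p + 1) := by
    obtain ⟨u, rfl⟩ := hpq
    refine ⟨u, ?_⟩
    rw [List.drop_append_of_le_length h1.1]
  have h4 := (condP_unique h1.2 h2.2 h3).1
  rw [e1, e2, h4]

end machpr

section final

variable {F : ℕ → List Bool → Option ℕ} {f : List Bool →. List Bool}

/-- counting bound -/
theorem bud_of (hF : ∀ p y, y ∈ (f p).map num ↔ ∃ t, F t p = some y) (m : ℕ) (X : Finset ℕ)
    (h : ∀ x ∈ X, ∃ t, dsc F t x m = true) : X.card < 2 ^ (m + 1) := by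
  classical
  have h1 : ∀ x ∈ X, ∃ p : List Bool, p.length ≤ m ∧ x ∈ (f p).map num := by
    intro x hx
    obtain ⟨t, ht⟩ := h x hx
    obtain ⟨p, hp1, hp2⟩ := dsc_sound ht
    exact ⟨p, hp1, (hF p x).2 ⟨t, hp2⟩⟩
  choose! P hP1 hP2 using h1
  have h2 : (X.image P).card = X.card := by
    apply Finset.card_image_of_injOn
    intro x hx y hy hxy
    have a1 := hP2 x hx
    have a2 := hP2 y hy
    rw [hxy] at a1
    exact Part.mem_unique a1 a2
  rw [← h2]
  apply card_short
  intro p hp
  rw [Finset.mem_image] at hp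
  obtain ⟨x, hx, rfl⟩ := hp
  exact hP1 x hx

theorem kraft_of (hF : ∀ p y, y ∈ (f p).map num ↔ ∃ t, F t p = some y) (hpf : PrefixFreeDom f)
    (X : Finset ℕ) (κ : ℕ → ℕ) (T : ℕ)
    (h : ∀ x ∈ X, (∃ t, dsc F t x (κ x) = true) ∧ κ x ≤ T) :
    ∑ x ∈ X, 2 ^ (T - κ x) ≤ 2 ^ T := by
  classical
  have h1 : ∀ x ∈ X, ∃ p : List Bool, p.length ≤ κ x ∧ x ∈ (f p).map num := by
    intro x hx
    obtain ⟨t, ht⟩ := (h x hx).1
    obtain ⟨p, hp1, hp2⟩ := dsc_sound ht
    exact ⟨p, hp1, (hF p x).2 ⟨t, hp2⟩⟩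
  choose! P hP1 hP2 using h1
  have hinj : Set.InjOn P X := by
    intro x hx y hy hxy
    have a1 := hP2 x hx
    have a2 := hP2 y hy
    rw [hxy] at a1
    exact Part.mem_unique a1 a2
  calc ∑ x ∈ X, 2 ^ (T - κ x) ≤ ∑ x ∈ X, 2 ^ (T - (P x).length) :=
        Finset.sum_le_sum (fun x hx => Nat.pow_le_pow_right (by norm_num)
          (by have := hP1 x hx; omega))
    _ = ∑ p ∈ X.image P, 2 ^ (T - p.length) :=
      (Finset.sum_image (f := fun p : List Bool => 2 ^ (T - p.length)) hinj).symm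
    _ ≤ 2 ^ T := by
      apply kraft
      · intro p hp
        rw [Finset.mem_image] at hp
        obtain ⟨x, hx, rfl⟩ := hp
        exact (hP1 x hx).trans (h x hx).2
      · intro p hp q hq hpq
        rw [Finset.mem_image] at hp hq
        obtain ⟨x, hx, rfl⟩ := hp
        obtain ⟨y, hy, rfl⟩ := hq
        have a1 := Part.dom_iff_mem.2 ⟨_, hP2 x hx⟩
        have a2 := Part.dom_iff_mem.2 ⟨_, hP2 y hy⟩
        rw [Part.map_Dom] at a1 a2
        exact hpf _ _ a1 a2 hpq

end final

theorem mem_map_num {f : List Bool →. List Bool} {p : List Bool} {n : ℕ} :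
    n ∈ (f p).map num ↔ str n ∈ f p := by
  rw [Part.mem_map_iff]
  constructor
  · rintro ⟨x, hx, rfl⟩
    rw [str_num]; exact hx
  · intro h
    exact ⟨_, h, num_str n⟩

/-- at large times the complexities have stabilised -/
theorem eventually_exact {F : ℕ → List Bool → Option ℕ} {f : List Bool →. List Bool}
    (hmono : ∀ t t' a y, t ≤ t' → F t a = some y → F t' a = some y)
    (hF : ∀ p y, y ∈ (f p).map num ↔ ∃ t, F t p = some y) {x : ℕ} (hx : ∃ p, str x ∈ f p) :
    ∃ t0, ∀ t ≥ t0, dsc F t x (descLen f (str x)) = true ∧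
      (descLen f (str x) = 0 ∨ dsc F t x (descLen f (str x) - 1) = false) := by
  obtain ⟨p, hp1, hp2⟩ := exists_descLen hx
  obtain ⟨t1, ht1⟩ := (hF p x).1 (mem_map_num.2 hp1)
  obtain ⟨t0, ht0⟩ := dsc_complete hmono hp2.le ht1
  refine ⟨t0, fun t ht => ⟨ht0 t ht, ?_⟩⟩
  by_cases h0 : descLen f (str x) = 0
  · left; exact h0
  · right
    by_contra hcon
    rw [Bool.not_eq_false] at hcon
    obtain ⟨q, hq1, hq2⟩ := dsc_sound hcon
    have h3 := mem_map_num.1 ((hF q x).2 ⟨t, hq2⟩)
    have h4 := descLen_le h3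
    omega

theorem unbounded {U V : List Bool →. List Bool} {W : List Bool → List Bool →. List Bool}
    {pr : List Bool → List Bool → List Bool} (hU : IsOptimalPlain U)
    (hV : IsOptimalPrefixFree V) (hW : IsOptimalCondPrefixFree W) (hpr : Computable₂ pr)
    (c : ℕ) : ∃ n : ℕ,
      c < descLen (fun p => W p (pr (str n) (str (descLen V (str n)))))
        (str (descLen U (str n))) := by
  classical
  by_contra hcon
  push Not at hcon
  set b := 2 ^ (c + 1) with hb
  -- approximations
  obtain ⟨FU, hFU1, hFU2, hFU3⟩ := exists_approx (f := fun p => (U p).map num)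
    (hU.partrec.map (num_pr.to_comp.comp Computable.snd).to₂)
  obtain ⟨FV, hFV1, hFV2, hFV3⟩ := exists_approx (f := fun p => (V p).map num)
    (hV.partrec.map (num_pr.to_comp.comp Computable.snd).to₂)
  obtain ⟨FW, hFW1, hFW2, hFW3⟩ := exists_approx
    (f := fun a : List Bool × (ℕ × ℕ) => (W a.1 (pr (str a.2.1) (str a.2.2))).map num)
    (by
      refine Partrec.map ?_ (num_pr.to_comp.comp Computable.snd).to₂
      refine hW.partrec.comp Computable.fst ?_
      exact hpr.comp (str_comp.comp (Computable.fst.comp Computable.snd))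
        (str_comp.comp (Computable.snd.comp Computable.snd)))
  set A : ℕ → ℕ → ℕ → Bool := fun t x m => dsc FU t x m with hA
  set B : ℕ → ℕ → ℕ → Bool := fun t x m => dsc FV t x m with hB
  set S : ℕ → ℕ → ℕ → ℕ → Bool :=
    fun t x k v => dsc (fun t p => FW t (p, (x, k))) t v c with hS
  have pA : Primrec fun a : ℕ × ℕ × ℕ => A a.1 a.2.1 a.2.2 := by
    refine dsc_pr (F := fun _ => FU) ?_ Primrec.fst (Primrec.fst.comp Primrec.snd)
      (Primrec.snd.comp Primrec.snd)
    exact hFU1.comp (Primrec.fst.comp Primrec.snd) (Primrec.snd.comp Primrec.snd)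
  have pB : Primrec fun a : ℕ × ℕ × ℕ => B a.1 a.2.1 a.2.2 := by
    refine dsc_pr (F := fun _ => FV) ?_ Primrec.fst (Primrec.fst.comp Primrec.snd)
      (Primrec.snd.comp Primrec.snd)
    exact hFV1.comp (Primrec.fst.comp Primrec.snd) (Primrec.snd.comp Primrec.snd)
  have pS : Primrec fun a : ℕ × ℕ × ℕ × ℕ => S a.1 a.2.1 a.2.2.1 a.2.2.2 := by
    refine dsc_pr (F := fun a : ℕ × ℕ × ℕ × ℕ => fun t p => FW t (p, (a.2.1, a.2.2.1))) ?_
      Primrec.fst (Primrec.snd.comp (Primrec.snd.comp Primrec.snd)) (Primrec.const c)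
    refine hFW1.comp (Primrec.fst.comp Primrec.snd) ?_
    refine (Primrec.snd.comp Primrec.snd).pair ?_
    exact (Primrec.fst.comp (Primrec.snd.comp Primrec.fst)).pair
      (Primrec.fst.comp (Primrec.snd.comp (Primrec.snd.comp Primrec.fst)))
  -- the machines
  obtain ⟨cM, hcM⟩ := hU.optimal _ (mach_partrec (Mf_pr (b := b) pA pB pS))
  obtain ⟨cP, hcP⟩ := hV.optimal _ (mach_partrec (Pf_pr (b := b) pA pB pS)) Pf_prefixFree
  set j := cM + cP + 3 with hj
  have hje : j + 1 + cM + cP ≤ pE j := by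
    unfold pE
    rw [hj, pow_add]
    have := Nat.lt_two_pow_self (n := cM + cP)
    omega
  have hN : 0 < pN b j := by
    unfold pN
    have : 0 < b := by rw [hb]; positivity
    positivity
  have budA : ∀ m (X : Finset ℕ), (∀ x ∈ X, ∃ t, A t x m = true) → X.card < 2 ^ (m + 1) :=
    fun m X h => bud_of (f := U) hFU3 m X h
  have kraftB : ∀ (X : Finset ℕ) (κ : ℕ → ℕ) (T : ℕ),
      (∀ x ∈ X, (∃ t, B t x (κ x) = true) ∧ κ x ≤ T) → ∑ x ∈ X, 2 ^ (T - κ x) ≤ 2 ^ T :=
    fun X κ T h => kraft_of (f := V) hFV3 hV.prefixFree X κ T h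
  have budS : ∀ x κ (X : Finset ℕ), (∀ v ∈ X, ∃ t, S t x κ v = true) → X.card ≤ b := by
    intro x κ X h
    exact (bud_of (F := fun t p => FW t (p, (x, κ)))
      (f := fun p => W p (pr (str x) (str κ))) (fun p y => hFW3 (p, (x, κ)) y) c X h).le
  refine game_false (A := A) (B := B) (S := S) (N := pN b j) (g := pG b j) (D := pD b j)
    (e := pE j) (b := b) (s := pE j + 4) (fun t x m m' hm h => dsc_mono_m t x m m' hm h)
    budA kraftB budS rfl hN rfl (pG_spec b j) rfl ?_
  -- progress
  intro t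
  set h := hd A B S (pN b j) (pG b j) (pD b j) (pE j) t with hh
  have hrank : rank A B S (pN b j) (pG b j) (pD b j) (pE j) t h <
      2 ^ ((pN b j - h.2.2.1) * pG b j) := rank_lt budA (pG_spec b j) t
  have hptr := ptr_le (B := B) (S := S) budA (pG_spec b j) (D := pD b j) rfl t
  rw [← hh] at hptr
  -- each element is eventually stable
  have hz : ∀ z < 2 ^ nn (pN b j) (pG b j) h.1, ∃ t0, ∀ t' ≥ t0,
      stab1 A B S t' (el h.1 h.2.1 z) (lv (pN b j) (pG b j) (pE j) h.1 h.2.2.1)
        (kv (pN b j) (pG b j) (pD b j) (pE j) h.1 h.2.1) := by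
    intro z hz
    set x := el h.1 h.2.1 z with hx
    obtain ⟨w, hw1, hw2⟩ := exists_condM (A := A) (B := B) (S := S) (N := pN b j) (g := pG b j)
      (D := pD b j) (e := pE j) (t := t) hz hrank
    obtain ⟨w', hw1', hw2'⟩ := exists_condP (A := A) (B := B) (S := S) (N := pN b j)
      (g := pG b j) (D := pD b j) (e := pE j) (t := t) hz hptr.1 hptr.2
    have m1 := Mf_spec hw1
    have m2 := Pf_spec hw1'
    rw [hw2] at m1
    rw [hw2'] at m2
    obtain ⟨q1, hq1, hq1'⟩ := hcM _ _ m1
    obtain ⟨q2, hq2, hq2'⟩ := hcP _ _ m2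
    have hC : descLen U (str x) ≤ lv (pN b j) (pG b j) (pE j) h.1 h.2.2.1 := by
      refine (descLen_le hq1).trans ?_
      have := hw1.1
      rw [← hh] at this
      simp only [List.length_append, List.length_replicate, List.length_cons] at hq1'
      unfold lv
      omega
    have hK : descLen V (str x) ≤ kv (pN b j) (pG b j) (pD b j) (pE j) h.1 h.2.1 := by
      refine (descLen_le hq2).trans ?_
      have := hw1'.2.1
      rw [← hh] at this
      simp only [List.length_append, List.length_replicate, List.length_cons] at hq2'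
      unfold kv
      omega
    obtain ⟨t1, ht1⟩ := eventually_exact (f := U) hFU2 hFU3 ⟨q1, hq1⟩
    obtain ⟨t2, ht2⟩ := eventually_exact (f := V) hFV2 hFV3 ⟨q2, hq2⟩
    -- the conditional description
    have hWx := hcon x
    set κ := descLen V (str x) with hκ
    set v := descLen U (str x) with hv
    have hex : ∃ p, str v ∈ W p (pr (str x) (str κ)) := by
      -- some machine outputs `str v` on the empty program
      obtain ⟨c', hc'⟩ := hW.optimal (fun p _ => if p = [] then Part.some (str v) else Part.none)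
        (by
          have : Partrec (fun a : List Bool × List Bool =>
              if a.1 = [] then Part.some (str v) else Part.none) := by
            have h1 := Partrec.cond (c := fun a : List Bool × List Bool => decide (a.1 = []))
              (f := fun _ => Part.some (str v)) (g := fun _ => Part.none)
              (Primrec.to_comp (PrimrecPred.decide
                (PrimrecRel.comp Primrec.eq Primrec.fst (Primrec.const []))))
              (Computable.const (str v)).partrec Partrec.none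
            refine h1.of_eq ?_
            intro a
            by_cases h : a.1 = [] <;> simp [h]
          exact this)
        (by
          intro y p q hp hq hpq
          have e1 : p = [] := by
            by_contra h; simp [h] at hp
          have e2 : q = [] := by
            by_contra h; simp [h] at hq
          rw [e1, e2])
      obtain ⟨q, hq, _⟩ := hc' [] (pr (str x) (str κ)) (str v) (by simp)
      exact ⟨q, hq⟩
    obtain ⟨p, hp1, hp2⟩ := exists_descLen hex
    have hpl : p.length ≤ c := by rw [hp2]; exact hWx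
    obtain ⟨t3, ht3⟩ := (hFW3 (p, (x, κ)) v).1 (mem_map_num.2 hp1)
    obtain ⟨t4, ht4⟩ := dsc_complete (F := fun t p => FW t (p, (x, κ)))
      (fun t t' a y htt ha => hFW2 t t' (a, (x, κ)) y htt ha) hpl ht3
    refine ⟨max t1 (max t2 t4), ?_⟩
    intro t' ht'
    have a1 := ht1 t' ((le_max_left _ _).trans ht')
    have a2 := ht2 t' ((le_max_left _ _).trans ((le_max_right _ _).trans ht'))
    have a3 := ht4 t' ((le_max_right _ _).trans ((le_max_right _ _).trans ht'))
    exact ⟨v, by omega, κ, by omega, a1.1, a1.2, a2.1, a2.2, a3⟩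
  choose! T hT using hz
  refine ⟨(Finset.range (2 ^ nn (pN b j) (pG b j) h.1)).sup T, ?_⟩
  intro t' ht' z hz
  exact hT z hz t' ((Finset.le_sup (f := T) (Finset.mem_range.2 hz)).trans ht')

end Pool.Agent.KCN
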